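import Pool.Agent.Helper5.EQ.Vague

/-! # Blocks of coordinates -/

set_option autoImplicit false

open Finset MeasureTheory Filter Topology
open scoped ComplexConjugate BoundedContinuousFunction

namespace Pool.Agent.Helper5.EQ

open Pool.Agent.Q12.CM Pool.Agent.N210.EQ

variable {I : Type} {F : Filter I} {ι : Type} {Y : ι → Type} [∀ j, TopologicalSpace (Y j)]
  [∀ j, MeasurableSpace (Y j)]

theorem Joint.mono [DecidableEq ι] {μ : ∀ j, Measure (Y j)} [∀ j, IsProbabilityMeasure (μ j)]
    {s : I → Orb Y} {J J' : Finset ι} (h : Joint F μ s J) (hJ : J' ⊆ J) : Joint F μ s J' := by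
  intro f
  have h1 := h fun j => if j ∈ J' then f j else 1
  have e1 : ∀ i, ∫ ω, ∏ j ∈ J, (if j ∈ J' then f j else 1 : Y j →ᵇ ℂ) ((s i).X j ω) ∂(s i).P =
      ∫ ω, ∏ j ∈ J', f j ((s i).X j ω) ∂(s i).P := by
    intro i
    refine integral_congr_ae (Eventually.of_forall fun ω => ?_)
    simp only
    rw [← Finset.prod_subset hJ]
    · exact Finset.prod_congr rfl fun j hj => by rw [if_pos hj]
    · intro j _ hj
      rw [if_neg hj]
      rfl
  have e2 : ∏ j ∈ J, ∫ y, (if j ∈ J' then f j else 1 : Y j →ᵇ ℂ) y ∂(μ j) =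
      ∏ j ∈ J', ∫ y, f j y ∂(μ j) := by
    rw [← Finset.prod_subset hJ]
    · exact Finset.prod_congr rfl fun j hj => by rw [if_pos hj]
    · intro j _ hj
      rw [if_neg hj]
      simp
  simp only [e1] at h1
  rw [e2] at h1
  exact h1

theorem Joint.filter_mono {μ : ∀ j, Measure (Y j)} {s : I → Orb Y} {J : Finset ι} {F' : Filter I}
    (h : Joint F μ s J) (hF : F' ≤ F) : Joint F' μ s J := fun f => (h f).mono_left hF

variable [∀ j, BorelSpace (Y j)]

/-- the maps `b` are trivial on the block `D` and weakly mixing on the block `C` -/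
def SepBlocks (μ : ∀ j, Measure (Y j)) (b : ∀ j, Y j → Y j) (C D : Finset ι) : Prop :=
  (∀ k ∈ D, b k = id) ∧ ∀ j ∈ C, MeasurePreserving (b j) (μ j) (μ j) ∧ WeakMix (μ j) (b j)

/-- eliminate a block -/
theorem step_blocks [DecidableEq ι] {μ : ∀ j, Measure (Y j)} [∀ j, IsProbabilityMeasure (μ j)]
    {s : I → Orb Y} {C D R : Finset ι} (hCD : Disjoint C D) (hCR : Disjoint C R)
    (hDR : Disjoint D R)
    (hJ1 : Joint F μ s (D ∪ R)) (hJ2 : Joint F μ s (C ∪ R)) {b : ∀ j, Y j → Y j}
    (hb : ∀ m, Continuous (b m)) (hsep : SepBlocks μ b C D) (f : ∀ j, Y j →ᵇ ℂ)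
    (A : Finset ι) (hA : A ⊆ C) {ε : ℝ} (hε : 0 < ε) :
    ∀ᶠ i in F, (∃ t, Sym (s i) (C ∪ (D ∪ R)) b t) →
      ‖∫ ω, ∏ m ∈ A ∪ (D ∪ R), f m ((s i).X m ω) ∂(s i).P -
        ∏ m ∈ A ∪ (D ∪ R), ∫ y, f m y ∂(μ m)‖ ≤ ε := by
  induction A using Finset.induction_on generalizing ε with
  | empty =>
    rw [Finset.empty_union]
    filter_upwards [Metric.tendsto_nhds.1 (hJ1 f) ε hε] with i hi _
    rw [dist_eq_norm] at hi
    exact hi.le
  | insert j A hjA ih =>
    have hjC : j ∈ C := hA (Finset.mem_insert_self j A)
    have hAC : A ⊆ C := (Finset.subset_insert _ _).trans hA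
    have ih' := fun {ε : ℝ} (hε : 0 < ε) => ih hAC hε
    have hjD : j ∉ D := Finset.disjoint_left.1 hCD hjC
    have hjR : j ∉ R := Finset.disjoint_left.1 hCR hjC
    have hAD : Disjoint A D := hCD.mono_left hAC
    have hAR : Disjoint A R := hCR.mono_left hAC
    set c : ℂ := ∫ y, f j y ∂(μ j) with hc
    set g : ∀ m, Y m →ᵇ ℂ :=
      Function.update f j (f j - BoundedContinuousFunction.const (Y j) c) with hg
    have hgj : g j = f j - BoundedContinuousFunction.const (Y j) c := Function.update_self ..
    have hgm : ∀ m, m ≠ j → g m = f m := fun m hm => Function.update_of_ne hm _ _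
    have hsub : insert j (A ∪ R) ⊆ C ∪ R := by
      intro m hm
      rw [Finset.mem_insert, Finset.mem_union] at hm
      rcases hm with rfl | hm | hm
      · exact Finset.mem_union_left _ hjC
      · exact Finset.mem_union_left _ (hAC hm)
      · exact Finset.mem_union_right _ hm
    have hnot : j ∉ A ∪ (D ∪ R) := by
      simp only [Finset.mem_union, not_or]
      exact ⟨hjA, hjD, hjR⟩
    have hnot' : j ∉ A ∪ R := by
      simp only [Finset.mem_union, not_or]
      exact ⟨hjA, hjR⟩
    have h1 := orthogonal (ε := ε / 2) (K := ∏ k ∈ D, ‖f k‖) (hJ2.mono hsub) (fun m _ => hb m)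
      (Finset.mem_insert_self j _) (hsep.2 j hjC).1 (hsep.2 j hjC).2
      (f := g) (by rw [hgj]; exact integral_sub_mean (μ j) (f j))
      (Finset.prod_nonneg fun _ _ => norm_nonneg _) (half_pos hε)
    have h2 := ih' (ε := ε / (2 * (‖c‖ + 1))) (by positivity)
    filter_upwards [h1, h2] with i hi1 hi2
    rintro ⟨t, ht⟩
    have hiter : ∀ ω, ∏ k ∈ D, f k ((s i).X k (t ω)) = ∏ k ∈ D, f k ((s i).X k ω) := by
      intro ω
      refine Finset.prod_congr rfl fun k hk => ?_
      rw [ht.shift k (Finset.mem_union_right _ (Finset.mem_union_left _ hk)), hsep.1 k hk, id]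
    have h3 := hi1 t (ht.mono (hsub.trans (Finset.union_subset_union_right
      Finset.subset_union_right))) (fun ω => ∏ k ∈ D, f k ((s i).X k ω))
      (measurable_prod (s i) D f) (fun ω => prod_norm_le D f fun m => (s i).X m ω) hiter
    have h4 := hi2 ⟨t, ht⟩
    have hdisj : Disjoint D (A ∪ R) := by
      rw [Finset.disjoint_union_right]
      exact ⟨hAD.symm, hDR⟩
    have hun : A ∪ (D ∪ R) = D ∪ (A ∪ R) := by
      rw [← Finset.union_assoc, Finset.union_comm A D, Finset.union_assoc]
    have e1 : ∀ ω, ∏ m ∈ insert j A ∪ (D ∪ R), f m ((s i).X m ω) =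
        c * ∏ m ∈ A ∪ (D ∪ R), f m ((s i).X m ω) +
        (∏ k ∈ D, f k ((s i).X k ω)) * ∏ m ∈ insert j (A ∪ R), g m ((s i).X m ω) := by
      intro ω
      rw [Finset.insert_union, Finset.prod_insert hnot, Finset.prod_insert hnot']
      have e3 : ∏ m ∈ A ∪ R, g m ((s i).X m ω) = ∏ m ∈ A ∪ R, f m ((s i).X m ω) :=
        Finset.prod_congr rfl fun m hm => by
          rw [hgm m (fun h => hnot' (h ▸ hm))]
      have e4 : g j ((s i).X j ω) = f j ((s i).X j ω) - c := by rw [hgj]; rfl
      rw [e3, e4, hun, Finset.prod_union hdisj]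
      ring
    have hI : Integrable (fun ω => (∏ k ∈ D, f k ((s i).X k ω)) *
        ∏ m ∈ insert j (A ∪ R), g m ((s i).X m ω)) (s i).P := by
      refine Integrable.of_bound ((measurable_prod (s i) D f).mul
        (measurable_prod (s i) _ g)).aestronglyMeasurable
        ((∏ k ∈ D, ‖f k‖) * ∏ m ∈ insert j (A ∪ R), ‖g m‖) (Eventually.of_forall fun ω => ?_)
      rw [norm_mul]
      exact mul_le_mul (prod_norm_le _ f fun m => (s i).X m ω)
        (prod_norm_le _ g fun m => (s i).X m ω) (norm_nonneg _)
        (Finset.prod_nonneg fun _ _ => norm_nonneg _)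
    have e5 : ∫ ω, ∏ m ∈ insert j A ∪ (D ∪ R), f m ((s i).X m ω) ∂(s i).P =
        c * ∫ ω, ∏ m ∈ A ∪ (D ∪ R), f m ((s i).X m ω) ∂(s i).P +
        ∫ ω, (∏ k ∈ D, f k ((s i).X k ω)) * ∏ m ∈ insert j (A ∪ R), g m ((s i).X m ω) ∂(s i).P := by
      rw [integral_congr_ae (Eventually.of_forall e1), integral_add, integral_const_mul]
      · exact (integrable_prod (s i) _ f).const_mul c
      · exact hI
    rw [e5, Finset.insert_union, Finset.prod_insert hnot, ← hc, add_sub_right_comm, ← mul_sub]
    refine (norm_add_le _ _).trans ?_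
    rw [norm_mul]
    have h5 : ‖c‖ * ‖∫ ω, ∏ m ∈ A ∪ (D ∪ R), f m ((s i).X m ω) ∂(s i).P -
        ∏ m ∈ A ∪ (D ∪ R), ∫ y, f m y ∂(μ m)‖ ≤ ε / 2 := by
      refine (mul_le_mul_of_nonneg_left h4 (norm_nonneg c)).trans ?_
      rw [mul_div_assoc', div_le_div_iff₀ (by positivity) (by norm_num)]
      nlinarith [norm_nonneg c]
    linarith

/-- **Joint equidistribution from the blocks.** -/
theorem joint_blocks [Fintype ι] [DecidableEq ι] {κ : Type} [DecidableEq κ] (blk : ι → κ)
    {μ : ∀ j, Measure (Y j)} [∀ j, IsProbabilityMeasure (μ j)]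
    {s : I → Orb Y} (h1 : ∀ c, Joint F μ s (univ.filter (fun j => blk j = c)))
    {B : Set (∀ j, Y j → Y j)} (hB : B.Finite) (hc : ∀ b ∈ B, ∀ j, Continuous (b j))
    (hsep : ∀ᶠ i in F, ∀ c d, c ∈ univ.image blk → d ∈ univ.image blk → c ≠ d → ∃ b ∈ B,
      (∃ t, Sym (s i) univ b t) ∧
      (SepBlocks μ b (univ.filter (fun j => blk j = c)) (univ.filter (fun j => blk j = d)) ∨
        SepBlocks μ b (univ.filter (fun j => blk j = d)) (univ.filter (fun j => blk j = c)))) :
    Joint F μ s univ := by
  have main : ∀ T : Finset κ, T ⊆ univ.image blk → Joint F μ s (univ.filter (fun j => blk j ∈ T)) := by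
    intro T
    induction T using Finset.strongInduction with
    | H T ih =>
      intro hT
      by_cases hcard : T.card ≤ 1
      · rcases Nat.lt_or_ge T.card 1 with h | h
        · have h0 : T = ∅ := Finset.card_eq_zero.1 (by omega)
          subst h0
          intro f
          simpa using tendsto_const_nhds
        · obtain ⟨c, rfl⟩ := Finset.card_eq_one.1 (le_antisymm hcard h)
          simpa using h1 c
      · rw [not_le, Finset.one_lt_card] at hcard
        obtain ⟨c, hcT, d, hdT, hcd⟩ := hcard
        -- the general step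
        have hstep : ∀ c ∈ T, ∀ d ∈ T, c ≠ d → ∀ b ∈ B,
            SepBlocks μ b (univ.filter (fun j => blk j = c)) (univ.filter (fun j => blk j = d)) →
            ∀ (f : ∀ j, Y j →ᵇ ℂ) (ε : ℝ), 0 < ε →
            ∀ᶠ i in F, (∃ t, Sym (s i) univ b t) →
            ‖∫ ω, ∏ m ∈ univ.filter (fun j => blk j ∈ T), f m ((s i).X m ω) ∂(s i).P -
              ∏ m ∈ univ.filter (fun j => blk j ∈ T), ∫ y, f m y ∂(μ m)‖ ≤ ε := by
          intro c hcT d hdT hcd b hb hs f ε hε
          set C := univ.filter (fun j => blk j = c) with hC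
          set D := univ.filter (fun j => blk j = d) with hD
          set R := univ.filter (fun j => blk j ∈ T ∧ blk j ≠ c ∧ blk j ≠ d) with hR
          have hCD : Disjoint C D := by
            rw [Finset.disjoint_left]
            intro j hj hj'
            rw [hC, Finset.mem_filter] at hj
            rw [hD, Finset.mem_filter] at hj'
            exact hcd (hj.2.symm.trans hj'.2)
          have hCR : Disjoint C R := by
            rw [Finset.disjoint_left]
            intro j hj hj'
            rw [hC, Finset.mem_filter] at hj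
            rw [hR, Finset.mem_filter] at hj'
            exact hj'.2.2.1 hj.2
          have hDR : Disjoint D R := by
            rw [Finset.disjoint_left]
            intro j hj hj'
            rw [hD, Finset.mem_filter] at hj
            rw [hR, Finset.mem_filter] at hj'
            exact hj'.2.2.2 hj.2
          have e1 : D ∪ R = univ.filter (fun j => blk j ∈ T.erase c) := by
            ext j
            simp only [hD, hR, Finset.mem_union, Finset.mem_filter, Finset.mem_univ, true_and,
              Finset.mem_erase]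
            constructor
            · rintro (h | ⟨h, h', h''⟩)
              · exact ⟨h ▸ hcd.symm, h ▸ hdT⟩
              · exact ⟨h', h⟩
            · rintro ⟨h, h'⟩
              by_cases hjd : blk j = d
              · exact Or.inl hjd
              · exact Or.inr ⟨h', h, hjd⟩
          have e2 : C ∪ R = univ.filter (fun j => blk j ∈ T.erase d) := by
            ext j
            simp only [hC, hR, Finset.mem_union, Finset.mem_filter, Finset.mem_univ, true_and,
              Finset.mem_erase]
            constructor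
            · rintro (h | ⟨h, h', h''⟩)
              · exact ⟨h ▸ hcd, h ▸ hcT⟩
              · exact ⟨h'', h⟩
            · rintro ⟨h, h'⟩
              by_cases hjc : blk j = c
              · exact Or.inl hjc
              · exact Or.inr ⟨h', hjc, h⟩
          have e3 : C ∪ (D ∪ R) = univ.filter (fun j => blk j ∈ T) := by
            ext j
            rw [e1]
            simp only [hC, Finset.mem_union, Finset.mem_filter, Finset.mem_univ, true_and,
              Finset.mem_erase]
            constructor
            · rintro (h | ⟨_, h⟩)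
              · exact h ▸ hcT
              · exact h
            · intro h
              by_cases hjc : blk j = c
              · exact Or.inl hjc
              · exact Or.inr ⟨hjc, h⟩
          have hJ1 : Joint F μ s (D ∪ R) := by
            rw [e1]
            exact ih _ (Finset.erase_ssubset hcT) ((Finset.erase_subset _ _).trans hT)
          have hJ2 : Joint F μ s (C ∪ R) := by
            rw [e2]
            exact ih _ (Finset.erase_ssubset hdT) ((Finset.erase_subset _ _).trans hT)
          have h3 := step_blocks hCD hCR hDR hJ1 hJ2 (hc b hb) hs f C subset_rfl hε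
          rw [e3] at h3
          filter_upwards [h3] with i hi
          rintro ⟨t, ht⟩
          exact hi ⟨t, ht.mono (Finset.subset_univ _)⟩
        intro f
        rw [Metric.tendsto_nhds]
        intro ε hε
        have hA : ∀ c ∈ T, ∀ d ∈ T, c ≠ d → ∀ᶠ i in F, ∀ b ∈ B,
            SepBlocks μ b (univ.filter (fun j => blk j = c)) (univ.filter (fun j => blk j = d)) →
            (∃ t, Sym (s i) univ b t) →
            ‖∫ ω, ∏ m ∈ univ.filter (fun j => blk j ∈ T), f m ((s i).X m ω) ∂(s i).P -
              ∏ m ∈ univ.filter (fun j => blk j ∈ T), ∫ y, f m y ∂(μ m)‖ ≤ ε / 2 := by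
          intro c hcT d hdT hcd
          refine (Filter.eventually_all_finite hB).2 fun b hb => ?_
          by_cases h : SepBlocks μ b (univ.filter (fun j => blk j = c))
              (univ.filter (fun j => blk j = d))
          · filter_upwards [hstep c hcT d hdT hcd b hb h f (ε / 2) (half_pos hε)] with i hi _ using hi
          · exact Eventually.of_forall fun i h' => absurd h' h
        filter_upwards [hsep, hA c hcT d hdT hcd, hA d hdT c hcT hcd.symm] with i hi hi1 hi2
        rw [dist_eq_norm]
        obtain ⟨b, hb, ht, h | h⟩ := hi c d (hT hcT) (hT hdT) hcd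
        · exact lt_of_le_of_lt (hi1 b hb h ht) (half_lt_self hε)
        · exact lt_of_le_of_lt (hi2 b hb h ht) (half_lt_self hε)
  have h2 := main (univ.image blk) subset_rfl
  have e : univ.filter (fun j => blk j ∈ univ.image blk) = univ := by
    refine Finset.filter_true_of_mem fun j _ => ?_
    exact Finset.mem_image_of_mem blk (Finset.mem_univ j)
  rwa [e] at h2

end Pool.Agent.Helper5.EQ
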