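import Pool.Graph.R_pool_sql_team_seeded_2aa45f1a.Q12.CM.Mix

/-! # Asymptotic independence of the coordinates of orbits -/

set_option autoImplicit false

open Finset MeasureTheory Filter Topology
open scoped ComplexConjugate BoundedContinuousFunction

namespace Pool.Agent.Helper5.EQ

open Pool.Agent.Q12.CM

section vdc

variable {Ω : Type} [MeasurableSpace Ω]

omit [MeasurableSpace Ω] in
lemma iter_inv {ψ : Ω → ℂ} {t : Ω → Ω} (hinv : ∀ ω, ψ (t ω) = ψ ω) (j : ℕ) (ω : Ω) :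
    ψ (t^[j] ω) = ψ ω := by
  induction j generalizing ω with
  | zero => rfl
  | succ j ih => rw [Function.iterate_succ_apply, ih, hinv]

/-- van der Corput -/
theorem vdc (P : Measure Ω) [IsProbabilityMeasure P] {t : Ω → Ω}
    (ht : MeasurePreserving t P P) {ψ φ : Ω → ℂ} (hψm : Measurable ψ) (hφm : Measurable φ) {K C : ℝ}
    (hψ : ∀ ω, ‖ψ ω‖ ≤ K) (hφ : ∀ ω, ‖φ ω‖ ≤ C) (hinv : ∀ ω, ψ (t ω) = ψ ω) (k : ℕ) (hk : 0 < k) :
    ‖∫ ω, ψ ω * φ ω ∂P‖ ^ 2 ≤ K ^ 2 * ((∑ j ∈ range k, ∑ l ∈ range k,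
      ‖∫ ω, φ (t^[j] ω) * conj (φ (t^[l] ω)) ∂P‖) / (k : ℝ) ^ 2) := by
  have : Nonempty Ω := by
    by_contra h
    rw [not_nonempty_iff] at h
    have h1 : P Set.univ = 1 := measure_univ
    rw [Set.univ_eq_empty_iff.2 h, measure_empty] at h1
    exact zero_ne_one h1
  obtain ⟨ω0⟩ := this
  have hK : 0 ≤ K := (norm_nonneg _).trans (hψ ω0)
  have hC : 0 ≤ C := (norm_nonneg _).trans (hφ ω0)
  have hmeasφ : ∀ j : ℕ, Measurable fun ω => φ (t^[j] ω) := fun j =>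
    hφm.comp (ht.iterate j).measurable
  have hWj : ∀ j : ℕ, ∫ ω, ψ ω * φ ω ∂P = ∫ ω, ψ ω * φ (t^[j] ω) ∂P := by
    intro j
    have e := (ht.iterate j).map_eq
    have hm : Measurable fun ω => ψ ω * φ ω := hψm.mul hφm
    have h3 : ∫ ω, ψ ω * φ ω ∂(P.map t^[j]) = ∫ ω, ψ (t^[j] ω) * φ (t^[j] ω) ∂P :=
      integral_map (ht.iterate j).measurable.aemeasurable hm.aestronglyMeasurable
    rw [e] at h3
    rw [h3]
    refine integral_congr_ae (Eventually.of_forall fun ω => ?_)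
    simp only [iter_inv hinv]
  set Φ : Ω → ℂ := fun ω => ∑ j ∈ range k, φ (t^[j] ω) with hΦ
  have hΦm : Measurable Φ := Finset.measurable_sum _ fun j _ => hmeasφ j
  have hΦb : ∀ ω, ‖Φ ω‖ ≤ k * C := by
    intro ω
    refine (norm_sum_le _ _).trans ?_
    calc ∑ j ∈ range k, ‖φ (t^[j] ω)‖ ≤ ∑ _j ∈ range k, C :=
          Finset.sum_le_sum fun j _ => hφ _
      _ = k * C := by rw [sum_const, card_range, nsmul_eq_mul]
  have hkW : (k : ℂ) * ∫ ω, ψ ω * φ ω ∂P = ∫ ω, ψ ω * Φ ω ∂P := by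
    have h1 : (k : ℂ) * ∫ ω, ψ ω * φ ω ∂P = ∑ j ∈ range k, ∫ ω, ψ ω * φ (t^[j] ω) ∂P := by
      rw [← Finset.sum_congr rfl fun j _ => hWj j, sum_const, card_range, nsmul_eq_mul]
    rw [h1, ← integral_finsetSum]
    · refine integral_congr_ae (Eventually.of_forall fun ω => ?_)
      simp only [hΦ, Finset.mul_sum]
    · intro j _
      refine Integrable.of_bound (hψm.mul (hmeasφ j)).aestronglyMeasurable (K * C)
        (Eventually.of_forall fun ω => ?_)
      rw [norm_mul]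
      exact mul_le_mul (hψ _) (hφ _) (norm_nonneg _) hK
  have hint : Integrable (fun ω => ‖Φ ω‖) P := by
    refine Integrable.of_bound hΦm.norm.aestronglyMeasurable (k * C) (Eventually.of_forall fun ω => ?_)
    rw [norm_norm]
    exact hΦb ω
  have hint2 : Integrable (fun ω => ‖Φ ω‖ ^ 2) P := by
    refine Integrable.of_bound (hΦm.norm.pow_const 2).aestronglyMeasurable ((k * C) ^ 2)
      (Eventually.of_forall fun ω => ?_)
    rw [norm_pow, norm_norm]
    exact pow_le_pow_left₀ (norm_nonneg _) (hΦb ω) 2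
  have h1 : (k : ℝ) * ‖∫ ω, ψ ω * φ ω ∂P‖ ≤ K * ∫ ω, ‖Φ ω‖ ∂P := by
    have h2 : (k : ℝ) * ‖∫ ω, ψ ω * φ ω ∂P‖ = ‖(k : ℂ) * ∫ ω, ψ ω * φ ω ∂P‖ := by
      rw [norm_mul, Complex.norm_natCast]
    rw [h2, hkW, ← integral_const_mul]
    refine (norm_integral_le_integral_norm _).trans ?_
    refine integral_mono_of_nonneg (Eventually.of_forall fun ω => norm_nonneg _) (hint.const_mul K)
      (Eventually.of_forall fun ω => ?_)
    simp only [norm_mul]
    exact mul_le_mul_of_nonneg_right (hψ ω) (norm_nonneg _)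
  have h2 : ((k : ℝ) * ‖∫ ω, ψ ω * φ ω ∂P‖) ^ 2 ≤ K ^ 2 * ∫ ω, ‖Φ ω‖ ^ 2 ∂P := by
    refine (pow_le_pow_left₀ (by positivity) h1 2).trans ?_
    rw [mul_pow]
    exact mul_le_mul_of_nonneg_left (sq_integral_le P hint hint2) (sq_nonneg K)
  have h3 : ∫ ω, ‖Φ ω‖ ^ 2 ∂P ≤ ∑ j ∈ range k, ∑ l ∈ range k,
      ‖∫ ω, φ (t^[j] ω) * conj (φ (t^[l] ω)) ∂P‖ := by
    have e1 : ((∫ ω, ‖Φ ω‖ ^ 2 ∂P : ℝ) : ℂ) = ∑ j ∈ range k, ∑ l ∈ range k,
        ∫ ω, φ (t^[j] ω) * conj (φ (t^[l] ω)) ∂P := by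
      rw [← integral_complex_ofReal]
      have e2 : ∀ ω, ((‖Φ ω‖ ^ 2 : ℝ) : ℂ) = ∑ j ∈ range k, ∑ l ∈ range k,
          φ (t^[j] ω) * conj (φ (t^[l] ω)) := by
        intro ω
        rw [Complex.ofReal_pow, ← Complex.mul_conj', hΦ]
        simp only
        rw [map_sum, Finset.sum_mul_sum]
      have hI : ∀ j l : ℕ, Integrable (fun ω => φ (t^[j] ω) * conj (φ (t^[l] ω))) P := by
        intro j l
        refine Integrable.of_bound ((hmeasφ j).mul
          (Complex.continuous_conj.measurable.comp (hmeasφ l))).aestronglyMeasurable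
          (C * C) (Eventually.of_forall fun ω => ?_)
        rw [norm_mul, Complex.norm_conj]
        exact mul_le_mul (hφ _) (hφ _) (norm_nonneg _) hC
      rw [integral_congr_ae (Eventually.of_forall e2), integral_finsetSum]
      · refine Finset.sum_congr rfl fun j _ => ?_
        rw [integral_finsetSum]
        intro l _
        exact hI j l
      · intro j _
        exact integrable_finsetSum _ fun l _ => hI j l
    have h4 : ∫ ω, ‖Φ ω‖ ^ 2 ∂P = ‖((∫ ω, ‖Φ ω‖ ^ 2 ∂P : ℝ) : ℂ)‖ := by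
      rw [Complex.norm_real, Real.norm_of_nonneg (integral_nonneg fun ω => sq_nonneg _)]
    rw [h4, e1]
    refine (norm_sum_le _ _).trans (Finset.sum_le_sum fun j _ => ?_)
    exact norm_sum_le _ _
  have hk' : (0 : ℝ) < k := by exact_mod_cast hk
  rw [← mul_div_assoc, le_div_iff₀ (by positivity)]
  calc ‖∫ ω, ψ ω * φ ω ∂P‖ ^ 2 * (k : ℝ) ^ 2 = ((k : ℝ) * ‖∫ ω, ψ ω * φ ω ∂P‖) ^ 2 := by ring
    _ ≤ K ^ 2 * ∫ ω, ‖Φ ω‖ ^ 2 ∂P := h2
    _ ≤ _ := mul_le_mul_of_nonneg_left h3 (sq_nonneg K)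

end vdc

variable {I : Type} {F : Filter I} {ι : Type} {Y : ι → Type} [∀ j, TopologicalSpace (Y j)]
  [∀ j, MeasurableSpace (Y j)] [∀ j, BorelSpace (Y j)]

/-- The orbit of a point of a product, with its probability measure. -/
structure Orb (Y : ι → Type) [∀ j, MeasurableSpace (Y j)] where
  Ω : Type
  [meas : MeasurableSpace Ω]
  P : Measure Ω
  [prob : IsProbabilityMeasure P]
  X : ∀ j, Ω → Y j
  measurable : ∀ j, Measurable (X j)

attribute [instance] Orb.meas Orb.prob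

/-- joint equidistribution of the coordinates in `J` -/
def Joint (F : Filter I) (μ : ∀ j, Measure (Y j)) (s : I → Orb Y) (J : Finset ι) : Prop :=
  ∀ f : ∀ j, Y j →ᵇ ℂ, Tendsto (fun i => ∫ ω, ∏ j ∈ J, f j ((s i).X j ω) ∂(s i).P) F
    (𝓝 (∏ j ∈ J, ∫ y, f j y ∂(μ j)))

/-- `t` is a symmetry of the orbit inducing `b` on the coordinates in `J` -/
structure Sym (o : Orb Y) (J : Finset ι) (b : ∀ j, Y j → Y j) (t : o.Ω → o.Ω) : Prop where
  preserves : MeasurePreserving t o.P o.P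
  shift : ∀ j ∈ J, ∀ ω, o.X j (t ω) = b j (o.X j ω)

omit [∀ j, TopologicalSpace (Y j)] [∀ j, BorelSpace (Y j)] in
lemma Sym.iter {o : Orb Y} {J : Finset ι} {b : ∀ j, Y j → Y j} {t : o.Ω → o.Ω}
    (h : Sym o J b t) {j : ι} (hj : j ∈ J) (k : ℕ) (ω : o.Ω) :
    o.X j (t^[k] ω) = (b j)^[k] (o.X j ω) := by
  induction k generalizing ω with
  | zero => rfl
  | succ k ih => rw [Function.iterate_succ_apply, ih, h.shift j hj, Function.iterate_succ_apply]

omit [∀ j, TopologicalSpace (Y j)] [∀ j, BorelSpace (Y j)] in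
lemma Sym.mono {o : Orb Y} {J J' : Finset ι} {b : ∀ j, Y j → Y j} {t : o.Ω → o.Ω}
    (h : Sym o J b t) (hJ : J' ⊆ J) : Sym o J' b t :=
  ⟨h.preserves, fun j hj => h.shift j (hJ hj)⟩

omit [∀ j, MeasurableSpace (Y j)] [∀ j, BorelSpace (Y j)] in
lemma prod_norm_le (J : Finset ι) (f : ∀ j, Y j →ᵇ ℂ) (y : ∀ j, Y j) :
    ‖∏ j ∈ J, f j (y j)‖ ≤ ∏ j ∈ J, ‖f j‖ := by
  rw [norm_prod]
  exact Finset.prod_le_prod (fun _ _ => norm_nonneg _) fun j _ => (f j).norm_coe_le_norm _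

lemma measurable_prod (o : Orb Y) (J : Finset ι) (f : ∀ j, Y j →ᵇ ℂ) :
    Measurable fun ω => ∏ j ∈ J, f j (o.X j ω) :=
  Finset.measurable_prod _ fun j _ => (f j).continuous.measurable.comp (o.measurable j)

lemma integrable_prod (o : Orb Y) (J : Finset ι) (f : ∀ j, Y j →ᵇ ℂ) :
    Integrable (fun ω => ∏ j ∈ J, f j (o.X j ω)) o.P :=
  Integrable.of_bound (measurable_prod o J f).aestronglyMeasurable (∏ j ∈ J, ‖f j‖)
    (Eventually.of_forall fun ω => prod_norm_le J f fun j => o.X j ω)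

lemma integral_norm_le_norm {Z : Type} [TopologicalSpace Z] [MeasurableSpace Z] [BorelSpace Z]
    (μ : Measure Z) [IsProbabilityMeasure μ]
    {g : Z → ℂ} {C : ℝ} (hg : ∀ z, ‖g z‖ ≤ C) : ‖∫ z, g z ∂μ‖ ≤ C := by
  have := norm_integral_le_of_norm_le_const (μ := μ) (f := g) (C := C) (Eventually.of_forall hg)
  simpa using this

/-- **The key lemma.** A product of functions of the coordinates in `J`, one of them of mean value zero
and moved by a weakly mixing map, is asymptotically orthogonal to all invariant functions. -/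
theorem orthogonal [DecidableEq ι] {μ : ∀ j, Measure (Y j)} [∀ j, IsProbabilityMeasure (μ j)]
    {s : I → Orb Y}
    {J : Finset ι} (hJ : Joint F μ s J) {b : ∀ j, Y j → Y j} (hb : ∀ j ∈ J, Continuous (b j))
    {j0 : ι} (hj0 : j0 ∈ J) (hpres : MeasurePreserving (b j0) (μ j0) (μ j0))
    (hmix : WeakMix (μ j0) (b j0)) {f : ∀ j, Y j →ᵇ ℂ} (hf : ∫ y, f j0 y ∂(μ j0) = 0) {K ε : ℝ}
    (_hK : 0 ≤ K) (hε : 0 < ε) :
    ∀ᶠ i in F, ∀ t, Sym (s i) J b t → ∀ ψ : (s i).Ω → ℂ, Measurable ψ → (∀ ω, ‖ψ ω‖ ≤ K) →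
      (∀ ω, ψ (t ω) = ψ ω) → ‖∫ ω, ψ ω * ∏ j ∈ J, f j ((s i).X j ω) ∂(s i).P‖ ≤ ε := by
  set D : ℝ := ∏ j ∈ J.erase j0, (‖f j‖ * ‖f j‖) with hD
  have hD0 : 0 ≤ D := Finset.prod_nonneg fun j _ => mul_nonneg (norm_nonneg _) (norm_nonneg _)
  set η : ℝ := ε ^ 2 / ((K ^ 2 + 1) * (D + 1)) with hη
  have hη0 : 0 < η := by positivity
  obtain ⟨k, hk0, hk⟩ := corr_small (hb j0 hj0) hpres hmix (f j0) hf hη0
  -- the functions
  have hcomp : ∀ m ∈ J, ∀ a c : ℕ, ∃ G : Y m →ᵇ ℂ, ∀ y,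
      G y = f m ((b m)^[a] y) * conj (f m ((b m)^[c] y)) := fun m hm a c =>
    ⟨((f m).compContinuous ⟨(b m)^[a], (hb m hm).iterate a⟩) *
      star ((f m).compContinuous ⟨(b m)^[c], (hb m hm).iterate c⟩), fun y => rfl⟩
  have hlim : Tendsto (fun i => (∑ a ∈ range k, ∑ c ∈ range k,
      ‖∫ ω, ∏ m ∈ J, (f m ((b m)^[a] ((s i).X m ω)) * conj (f m ((b m)^[c] ((s i).X m ω)))) ∂(s i).P‖) /
        (k : ℝ) ^ 2) F
      (𝓝 ((∑ a ∈ range k, ∑ c ∈ range k,
      ‖∏ m ∈ J, ∫ y, f m ((b m)^[a] y) * conj (f m ((b m)^[c] y)) ∂(μ m)‖) / (k : ℝ) ^ 2)) := by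
    refine Tendsto.div_const (tendsto_finsetSum _ fun a _ => tendsto_finsetSum _ fun c _ => ?_) _
    refine Tendsto.norm ?_
    classical
    let G : ∀ m, Y m →ᵇ ℂ := fun m => if hm : m ∈ J then (hcomp m hm a c).choose else 0
    have hG : ∀ m ∈ J, ∀ y, G m y = f m ((b m)^[a] y) * conj (f m ((b m)^[c] y)) := by
      intro m hm y
      simp only [G, dif_pos hm]
      exact (hcomp m hm a c).choose_spec y
    have h1 := hJ G
    have e1 : (fun i => ∫ ω, ∏ j ∈ J, G j ((s i).X j ω) ∂(s i).P) = fun i =>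
        ∫ ω, ∏ m ∈ J, (f m ((b m)^[a] ((s i).X m ω)) * conj (f m ((b m)^[c] ((s i).X m ω)))) ∂(s i).P := by
      funext i
      refine integral_congr_ae (Eventually.of_forall fun ω => ?_)
      exact Finset.prod_congr rfl fun m hm => hG m hm _
    have e2 : ∏ j ∈ J, ∫ y, G j y ∂(μ j) =
        ∏ m ∈ J, ∫ y, f m ((b m)^[a] y) * conj (f m ((b m)^[c] y)) ∂(μ m) := by
      refine Finset.prod_congr rfl fun m hm => ?_
      exact integral_congr_ae (Eventually.of_forall fun y => hG m hm y)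
    rw [e1, e2] at h1
    exact h1
  have hbound : (∑ a ∈ range k, ∑ c ∈ range k,
      ‖∏ m ∈ J, ∫ y, f m ((b m)^[a] y) * conj (f m ((b m)^[c] y)) ∂(μ m)‖) / (k : ℝ) ^ 2 ≤ D * η := by
    have h1 : ∀ a c : ℕ, ‖∏ m ∈ J, ∫ y, f m ((b m)^[a] y) * conj (f m ((b m)^[c] y)) ∂(μ m)‖ ≤
        D * ‖∫ y, f j0 ((b j0)^[a] y) * conj (f j0 ((b j0)^[c] y)) ∂(μ j0)‖ := by
      intro a c
      rw [norm_prod, ← Finset.prod_erase_mul _ _ hj0]
      refine mul_le_mul_of_nonneg_right ?_ (norm_nonneg _)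
      refine Finset.prod_le_prod (fun _ _ => norm_nonneg _) fun m _ => ?_
      refine integral_norm_le_norm _ fun y => ?_
      rw [norm_mul, Complex.norm_conj]
      exact mul_le_mul ((f m).norm_coe_le_norm _) ((f m).norm_coe_le_norm _) (norm_nonneg _)
        (norm_nonneg _)
    have h2 : (∑ a ∈ range k, ∑ c ∈ range k,
        ‖∏ m ∈ J, ∫ y, f m ((b m)^[a] y) * conj (f m ((b m)^[c] y)) ∂(μ m)‖) ≤
        D * ∑ a ∈ range k, ∑ c ∈ range k,
          ‖∫ y, f j0 ((b j0)^[a] y) * conj (f j0 ((b j0)^[c] y)) ∂(μ j0)‖ := by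
      rw [Finset.mul_sum]
      refine Finset.sum_le_sum fun a _ => ?_
      rw [Finset.mul_sum]
      exact Finset.sum_le_sum fun c _ => h1 a c
    calc _ ≤ (D * ∑ a ∈ range k, ∑ c ∈ range k,
          ‖∫ y, f j0 ((b j0)^[a] y) * conj (f j0 ((b j0)^[c] y)) ∂(μ j0)‖) / (k : ℝ) ^ 2 :=
          div_le_div_of_nonneg_right h2 (by positivity)
      _ = D * ((∑ a ∈ range k, ∑ c ∈ range k,
          ‖∫ y, f j0 ((b j0)^[a] y) * conj (f j0 ((b j0)^[c] y)) ∂(μ j0)‖) / (k : ℝ) ^ 2) := by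
          rw [mul_div_assoc]
      _ ≤ D * η := mul_le_mul_of_nonneg_left hk hD0
  have hlt : D * η < D * η + η := by linarith
  have h1 := hlim.eventually_lt_const (lt_of_le_of_lt hbound hlt)
  filter_upwards [h1] with i hi t ht ψ hψm hψ hinv
  have h2 := vdc (s i).P ht.preserves hψm (measurable_prod (s i) J f) hψ
    (fun ω => prod_norm_le J f fun j => (s i).X j ω) hinv k hk0
  have e3 : ∀ a c : ℕ, ∫ ω, (∏ j ∈ J, f j ((s i).X j (t^[a] ω))) *
      conj (∏ j ∈ J, f j ((s i).X j (t^[c] ω))) ∂(s i).P =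
      ∫ ω, ∏ m ∈ J, (f m ((b m)^[a] ((s i).X m ω)) * conj (f m ((b m)^[c] ((s i).X m ω)))) ∂(s i).P := by
    intro a c
    refine integral_congr_ae (Eventually.of_forall fun ω => ?_)
    simp only
    rw [map_prod, ← Finset.prod_mul_distrib]
    refine Finset.prod_congr rfl fun m hm => ?_
    rw [ht.iter hm, ht.iter hm]
  simp only [e3] at h2
  have h3 : K ^ 2 * (D * η + η) ≤ ε ^ 2 := by
    have h4 : K ^ 2 * (D * η + η) = ε ^ 2 * (K ^ 2 / (K ^ 2 + 1)) := by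
      rw [hη]
      field_simp
    rw [h4]
    refine mul_le_of_le_one_right (sq_nonneg ε) ?_
    rw [div_le_one (by positivity)]
    linarith
  have h4 : ‖∫ ω, ψ ω * ∏ j ∈ J, f j ((s i).X j ω) ∂(s i).P‖ ^ 2 ≤ ε ^ 2 :=
    (h2.trans (mul_le_mul_of_nonneg_left hi.le (sq_nonneg K))).trans h3
  exact (abs_le_of_sq_le_sq' h4 hε.le).2

/-- the integral of a function minus its mean -/
lemma integral_sub_mean {Z : Type} [TopologicalSpace Z] [MeasurableSpace Z] [BorelSpace Z]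
    (μ : Measure Z) [IsProbabilityMeasure μ] (f : Z →ᵇ ℂ) :
    ∫ z, (f - BoundedContinuousFunction.const Z (∫ y, f y ∂μ)) z ∂μ = 0 := by
  have e : ∀ z, (f - BoundedContinuousFunction.const Z (∫ y, f y ∂μ)) z = f z - ∫ y, f y ∂μ :=
    fun z => rfl
  simp only [e]
  rw [integral_sub _ (integrable_const _), integral_const, probReal_univ, one_smul, sub_self]
  exact integrable_bcf μ f.continuous fun y => f.norm_coe_le_norm _

/-- one step: eliminate the coordinate `k` with a symmetry which is weakly mixing on the coordinate `j` -/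
theorem step [DecidableEq ι] {μ : ∀ j, Measure (Y j)} [∀ j, IsProbabilityMeasure (μ j)]
    {s : I → Orb Y} {J : Finset ι} {j k : ι} (hj : j ∈ J) (hk : k ∈ J) (hjk : j ≠ k)
    (hJj : Joint F μ s (J.erase j)) (hJk : Joint F μ s (J.erase k)) {b : ∀ j, Y j → Y j}
    (hb : ∀ m ∈ J.erase k, Continuous (b m)) (hpres : MeasurePreserving (b j) (μ j) (μ j))
    (hmix : WeakMix (μ j) (b j)) (f : ∀ j, Y j →ᵇ ℂ) {ε : ℝ} (hε : 0 < ε) :
    ∀ᶠ i in F, (∃ t, Sym (s i) (J.erase k) b t ∧ ∀ ω, (s i).X k (t ω) = (s i).X k ω) →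
      ‖∫ ω, ∏ m ∈ J, f m ((s i).X m ω) ∂(s i).P - ∏ m ∈ J, ∫ y, f m y ∂(μ m)‖ ≤ ε := by
  set c : ℂ := ∫ y, f j y ∂(μ j) with hc
  set g : ∀ m, Y m →ᵇ ℂ := Function.update f j (f j - BoundedContinuousFunction.const (Y j) c) with hg
  have hgj : g j = f j - BoundedContinuousFunction.const (Y j) c := Function.update_self ..
  have hgm : ∀ m, m ≠ j → g m = f m := fun m hm => Function.update_of_ne hm _ _
  have h1 := orthogonal (ε := ε / 2) (K := ‖f k‖) hJk hb (Finset.mem_erase.2 ⟨hjk, hj⟩) hpres hmix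
    (f := g) (by rw [hgj]; exact integral_sub_mean (μ j) (f j)) (norm_nonneg _) (half_pos hε)
  have h2 : Tendsto (fun i => c * ∫ ω, ∏ m ∈ J.erase j, f m ((s i).X m ω) ∂(s i).P) F
      (𝓝 (c * ∏ m ∈ J.erase j, ∫ y, f m y ∂(μ m))) := (hJj f).const_mul c
  have h3 := (Metric.tendsto_nhds.1 h2) (ε / 2) (half_pos hε)
  filter_upwards [h1, h3] with i hi1 hi2
  rintro ⟨t, ht, htk⟩
  have h4 := hi1 t ht (fun ω => f k ((s i).X k ω))
    ((f k).continuous.measurable.comp ((s i).measurable k)) (fun ω => (f k).norm_coe_le_norm _)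
    (fun ω => by rw [htk])
  rw [dist_eq_norm, hc, Finset.mul_prod_erase J (fun m => ∫ y, f m y ∂(μ m)) hj] at hi2
  have e1 : ∀ ω, ∏ m ∈ J, f m ((s i).X m ω) = c * ∏ m ∈ J.erase j, f m ((s i).X m ω) +
      f k ((s i).X k ω) * ∏ m ∈ J.erase k, g m ((s i).X m ω) := by
    intro ω
    have e2 : f k ((s i).X k ω) * ∏ m ∈ J.erase k, g m ((s i).X m ω) =
        ∏ m ∈ J, g m ((s i).X m ω) := by
      rw [← Finset.mul_prod_erase J (fun m => g m ((s i).X m ω)) hk, hgm k hjk.symm]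
    rw [e2, ← Finset.mul_prod_erase J (fun m => g m ((s i).X m ω)) hj,
      ← Finset.mul_prod_erase J (fun m => f m ((s i).X m ω)) hj]
    have e3 : ∏ m ∈ J.erase j, g m ((s i).X m ω) = ∏ m ∈ J.erase j, f m ((s i).X m ω) :=
      Finset.prod_congr rfl fun m hm => by rw [hgm m (Finset.ne_of_mem_erase hm)]
    have e4 : g j ((s i).X j ω) = f j ((s i).X j ω) - c := by rw [hgj]; rfl
    rw [e3, e4]
    ring
  have e5 : ∫ ω, ∏ m ∈ J, f m ((s i).X m ω) ∂(s i).P =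
      c * ∫ ω, ∏ m ∈ J.erase j, f m ((s i).X m ω) ∂(s i).P +
      ∫ ω, f k ((s i).X k ω) * ∏ m ∈ J.erase k, g m ((s i).X m ω) ∂(s i).P := by
    rw [integral_congr_ae (Eventually.of_forall e1), integral_add, integral_const_mul]
    · exact (integrable_prod (s i) (J.erase j) f).const_mul c
    · refine Integrable.of_bound ((((f k).continuous.measurable.comp ((s i).measurable k))).mul
        (measurable_prod (s i) (J.erase k) g)).aestronglyMeasurable
        (‖f k‖ * ∏ m ∈ J.erase k, ‖g m‖) (Eventually.of_forall fun ω => ?_)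
      rw [norm_mul]
      exact mul_le_mul ((f k).norm_coe_le_norm _) (prod_norm_le _ g fun m => (s i).X m ω)
        (norm_nonneg _) (norm_nonneg _)
  rw [e5, add_sub_right_comm]
  refine (norm_add_le _ _).trans ?_
  linarith

/-- the pair `j, k` is separated by the family of maps `b` -/
def Separates (μ : ∀ j, Measure (Y j)) (b : ∀ j, Y j → Y j) (j k : ι) : Prop :=
  b k = id ∧ MeasurePreserving (b j) (μ j) (μ j) ∧ WeakMix (μ j) (b j)

/-- **Separation implies joint equidistribution.** -/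
theorem joint_of_subsets [DecidableEq ι] {μ : ∀ j, Measure (Y j)} [∀ j, IsProbabilityMeasure (μ j)]
    {s : I → Orb Y} (h1 : ∀ j, Joint F μ s {j}) {B : Set (∀ j, Y j → Y j)} (hB : B.Finite)
    (hc : ∀ b ∈ B, ∀ j, Continuous (b j)) (J : Finset ι)
    (hsep : ∀ J' ⊆ J, 1 < J'.card → ∀ᶠ i in F, ∃ j ∈ J', ∃ k ∈ J', j ≠ k ∧ ∃ b ∈ B,
      (∃ t, Sym (s i) J' b t) ∧ Separates μ b j k) :
    Joint F μ s J := by
  induction J using Finset.strongInduction with
  | H J ih =>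
    have ih' : ∀ J' ⊂ J, Joint F μ s J' := fun J' hJ' =>
      ih J' hJ' fun J'' hJ'' => hsep J'' (hJ''.trans hJ'.1)
    by_cases hcard : J.card ≤ 1
    · rcases Nat.lt_or_ge J.card 1 with h | h
      · have h0 : J = ∅ := Finset.card_eq_zero.1 (by omega)
        subst h0
        intro f
        simpa using tendsto_const_nhds
      · obtain ⟨j, rfl⟩ := Finset.card_eq_one.1 (le_antisymm hcard h)
        exact h1 j
    · rw [not_le] at hcard
      intro f
      rw [Metric.tendsto_nhds]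
      intro ε hε
      have hA : ∀ᶠ i in F, ∀ j ∈ J, ∀ k ∈ J, j ≠ k → ∀ b ∈ B, Separates μ b j k →
          (∃ t, Sym (s i) (J.erase k) b t ∧ ∀ ω, (s i).X k (t ω) = (s i).X k ω) →
          ‖∫ ω, ∏ m ∈ J, f m ((s i).X m ω) ∂(s i).P - ∏ m ∈ J, ∫ y, f m y ∂(μ m)‖ ≤ ε / 2 := by
        refine (Filter.eventually_all_finset J).2 fun j hj =>
          (Filter.eventually_all_finset J).2 fun k hk => ?_
        by_cases hjk : j = k
        · exact Eventually.of_forall fun i h' => absurd hjk h'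
        · have h2 : ∀ᶠ i in F, ∀ b ∈ B, Separates μ b j k →
              (∃ t, Sym (s i) (J.erase k) b t ∧ ∀ ω, (s i).X k (t ω) = (s i).X k ω) →
              ‖∫ ω, ∏ m ∈ J, f m ((s i).X m ω) ∂(s i).P - ∏ m ∈ J, ∫ y, f m y ∂(μ m)‖ ≤ ε / 2 := by
            refine (Filter.eventually_all_finite hB).2 fun b hb => ?_
            by_cases h : Separates μ b j k
            · filter_upwards [step hj hk hjk (ih' _ (Finset.erase_ssubset hj))
                (ih' _ (Finset.erase_ssubset hk)) (fun m _ => hc b hb m) h.2.1 h.2.2 f (half_pos hε)]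
                with i hi _ using hi
            · exact Eventually.of_forall fun i h' => absurd h' h
          filter_upwards [h2] with i hi _ using hi
      filter_upwards [hsep J subset_rfl hcard, hA] with i hi hiA
      rw [dist_eq_norm]
      obtain ⟨j, hj, k, hk, hjk, b, hb, ⟨t, ht⟩, h⟩ := hi
      refine lt_of_le_of_lt (hiA j hj k hk hjk b hb h ⟨t, ht.mono (Finset.erase_subset _ _),
        fun ω => ?_⟩) (half_lt_self hε)
      rw [ht.shift k hk, h.1, id]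

/-- **Pairwise separation implies joint equidistribution.** -/
theorem joint [DecidableEq ι] {μ : ∀ j, Measure (Y j)} [∀ j, IsProbabilityMeasure (μ j)]
    {s : I → Orb Y} (h1 : ∀ j, Joint F μ s {j}) {B : Set (∀ j, Y j → Y j)} (hB : B.Finite)
    (hc : ∀ b ∈ B, ∀ j, Continuous (b j)) (J : Finset ι)
    (hsep : ∀ᶠ i in F, ∀ j ∈ J, ∀ k ∈ J, j ≠ k → ∃ b ∈ B, (∃ t, Sym (s i) J b t) ∧
      (Separates μ b j k ∨ Separates μ b k j)) :
    Joint F μ s J := by
  refine joint_of_subsets h1 hB hc J fun J' hJ' hcard => ?_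
  obtain ⟨j, hj, k, hk, hjk⟩ := Finset.one_lt_card.1 hcard
  filter_upwards [hsep] with i hi
  obtain ⟨b, hb, ⟨t, ht⟩, h | h⟩ := hi j (hJ' hj) k (hJ' hk) hjk
  · exact ⟨j, hj, k, hk, hjk, b, hb, ⟨t, ht.mono hJ'⟩, h⟩
  · exact ⟨k, hk, j, hj, hjk.symm, b, hb, ⟨t, ht.mono hJ'⟩, h⟩

/-- **Asymptotic independence of the invariant functions.** -/
theorem conditional [DecidableEq ι] {μ : ∀ j, Measure (Y j)} [∀ j, IsProbabilityMeasure (μ j)]
    {s : I → Orb Y} {b : ∀ j, Y j → Y j} (hb : ∀ j, Continuous (b j))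
    (hpres : ∀ j, MeasurePreserving (b j) (μ j) (μ j)) (hmix : ∀ j, WeakMix (μ j) (b j))
    (J : Finset ι) (hJ : ∀ J' ⊆ J, Joint F μ s J') (f : ∀ j, Y j →ᵇ ℂ) {K ε : ℝ} (hK : 0 ≤ K)
    (hε : 0 < ε) :
    ∀ᶠ i in F, ∀ t, Sym (s i) J b t → ∀ ψ : (s i).Ω → ℂ, Measurable ψ → (∀ ω, ‖ψ ω‖ ≤ K) →
      (∀ ω, ψ (t ω) = ψ ω) → ‖∫ ω, ψ ω * ∏ j ∈ J, f j ((s i).X j ω) ∂(s i).P -
        (∫ ω, ψ ω ∂(s i).P) * ∏ j ∈ J, ∫ y, f j y ∂(μ j)‖ ≤ ε := by
  induction J using Finset.induction_on generalizing ε with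
  | empty =>
    refine Eventually.of_forall fun i t _ ψ _ _ _ => ?_
    simp [hε.le]
  | insert j J hjJ ih =>
    have ih' := fun {ε : ℝ} (hε : 0 < ε) =>
      ih (fun J' hJ' => hJ J' (hJ'.trans (Finset.subset_insert _ _))) hε
    set c : ℂ := ∫ y, f j y ∂(μ j) with hc
    set g : ∀ m, Y m →ᵇ ℂ :=
      Function.update f j (f j - BoundedContinuousFunction.const (Y j) c) with hg
    have hgj : g j = f j - BoundedContinuousFunction.const (Y j) c := Function.update_self ..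
    have hgm : ∀ m, m ≠ j → g m = f m := fun m hm => Function.update_of_ne hm _ _
    have h1 := orthogonal (ε := ε / 2) (K := K) (hJ _ subset_rfl) (fun m _ => hb m)
      (Finset.mem_insert_self j J) (hpres j) (hmix j)
      (f := g) (by rw [hgj]; exact integral_sub_mean (μ j) (f j)) hK (half_pos hε)
    have h2 := ih' (ε := ε / (2 * (‖c‖ + 1))) (by positivity)
    filter_upwards [h1, h2] with i hi1 hi2 t ht ψ hψm hψ hinv
    have h3 := hi1 t ht ψ hψm hψ hinv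
    have h4 := hi2 t (ht.mono (Finset.subset_insert _ _)) ψ hψm hψ hinv
    have e1 : ∀ ω, ψ ω * ∏ m ∈ insert j J, f m ((s i).X m ω) =
        c * (ψ ω * ∏ m ∈ J, f m ((s i).X m ω)) + ψ ω * ∏ m ∈ insert j J, g m ((s i).X m ω) := by
      intro ω
      rw [Finset.prod_insert hjJ, Finset.prod_insert hjJ]
      have e3 : ∏ m ∈ J, g m ((s i).X m ω) = ∏ m ∈ J, f m ((s i).X m ω) :=
        Finset.prod_congr rfl fun m hm => by
          rw [hgm m (fun h => hjJ (h ▸ hm))]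
      have e4 : g j ((s i).X j ω) = f j ((s i).X j ω) - c := by rw [hgj]; rfl
      rw [e3, e4]
      ring
    have hI : ∀ (J : Finset ι) (u : ∀ j, Y j →ᵇ ℂ),
        Integrable (fun ω => ψ ω * ∏ m ∈ J, u m ((s i).X m ω)) (s i).P := by
      intro J u
      refine Integrable.of_bound (hψm.mul (measurable_prod (s i) J u)).aestronglyMeasurable
        (K * ∏ m ∈ J, ‖u m‖) (Eventually.of_forall fun ω => ?_)
      rw [norm_mul]
      exact mul_le_mul (hψ ω) (prod_norm_le _ u fun m => (s i).X m ω) (norm_nonneg _) hK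
    have e5 : ∫ ω, ψ ω * ∏ m ∈ insert j J, f m ((s i).X m ω) ∂(s i).P =
        c * ∫ ω, ψ ω * ∏ m ∈ J, f m ((s i).X m ω) ∂(s i).P +
        ∫ ω, ψ ω * ∏ m ∈ insert j J, g m ((s i).X m ω) ∂(s i).P := by
      rw [integral_congr_ae (Eventually.of_forall e1), integral_add, integral_const_mul]
      · exact (hI J f).const_mul c
      · exact hI (insert j J) g
    rw [e5, Finset.prod_insert hjJ, ← hc]
    have e6 : c * ∫ ω, ψ ω * ∏ m ∈ J, f m ((s i).X m ω) ∂(s i).P +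
        ∫ ω, ψ ω * ∏ m ∈ insert j J, g m ((s i).X m ω) ∂(s i).P -
        (∫ ω, ψ ω ∂(s i).P) * (c * ∏ m ∈ J, ∫ y, f m y ∂(μ m)) =
        c * (∫ ω, ψ ω * ∏ m ∈ J, f m ((s i).X m ω) ∂(s i).P -
          (∫ ω, ψ ω ∂(s i).P) * ∏ m ∈ J, ∫ y, f m y ∂(μ m)) +
        ∫ ω, ψ ω * ∏ m ∈ insert j J, g m ((s i).X m ω) ∂(s i).P := by ring
    rw [e6]
    refine (norm_add_le _ _).trans ?_
    rw [norm_mul]
    have h5 : ‖c‖ * ‖∫ ω, ψ ω * ∏ m ∈ J, f m ((s i).X m ω) ∂(s i).P -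
          (∫ ω, ψ ω ∂(s i).P) * ∏ m ∈ J, ∫ y, f m y ∂(μ m)‖ ≤ ε / 2 := by
      refine (mul_le_mul_of_nonneg_left h4 (norm_nonneg c)).trans ?_
      rw [mul_div_assoc', div_le_div_iff₀ (by positivity) (by norm_num)]
      nlinarith [norm_nonneg c]
    linarith

end Pool.Agent.Helper5.EQ
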