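import Pool.Agent.Helper5.EQ.Rel

/-! # Almost all points -/

set_option autoImplicit false

open Finset MeasureTheory Filter Topology
open scoped ComplexConjugate BoundedContinuousFunction

namespace Pool.Agent.Helper5.EQ

open Pool.Agent.Q12.CM Pool.Agent.N210.EQ

/-- Chebyshev's inequality -/
lemma chebyshev {A : Type} [Fintype A] [Nonempty A] (D : A → ℝ) {ε δ : ℝ} (hε : 0 < ε)
    (h : (∑ a, D a ^ 2) / Fintype.card A ≤ δ) :
    (({a | ε < |D a|} : Set A).ncard : ℝ) ≤ δ / ε ^ 2 * Fintype.card A := by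
  classical
  have hA : (0 : ℝ) < Fintype.card A := by exact_mod_cast Fintype.card_pos
  rw [div_le_iff₀ hA] at h
  have e1 : ({a | ε < |D a|} : Set A) = ((univ.filter fun a => ε < |D a| : Finset A) : Set A) := by
    ext a
    simp
  rw [e1, Set.ncard_coe_finset, div_mul_eq_mul_div, le_div_iff₀ (by positivity)]
  refine le_trans ?_ h
  calc ((univ.filter fun a => ε < |D a|).card : ℝ) * ε ^ 2 =
        ∑ a ∈ univ.filter fun a => ε < |D a|, ε ^ 2 := by
        rw [Finset.sum_const, nsmul_eq_mul]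
    _ ≤ ∑ a ∈ univ.filter fun a => ε < |D a|, D a ^ 2 := by
        refine Finset.sum_le_sum fun a ha => ?_
        rw [Finset.mem_filter] at ha
        rw [← sq_abs (D a)]
        exact pow_le_pow_left₀ hε.le ha.2.le 2
    _ ≤ ∑ a, D a ^ 2 := Finset.sum_le_univ_sum_of_nonneg fun a => sq_nonneg _

variable {ι : Type}

lemma bmean_coset {S : ι → Type} {A : Type} [CommGroup A] [Fintype A] (Φ : (∀ j, S j) → ℝ)
    (x : ∀ j, A → S j) (B : Subgroup A) (g : ι → A) {b : A} (hb : b ∈ B) :
    bmean Φ x B (fun j => b * g j) = bmean Φ x B g := by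
  unfold bmean
  congr 1
  refine finsum_eq_of_bijective (fun b' : B => b' * ⟨b, hb⟩)
    (Group.mulRight_bijective (⟨b, hb⟩ : B)) fun b' => ?_
  congr 1
  funext j
  rw [Subgroup.coe_mul]
  simp only [mul_assoc]

/-- the union over the translates -/
lemma count_translates {S : ι → Type} {A : Type} [CommGroup A] [Fintype A] (Φ : (∀ j, S j) → ℝ)
    (x : ∀ j, A → S j) (B : Subgroup A) (m : ℝ) {r : ℕ} (e : ι → Fin r → ℤ) (y : ι → A) {ε δ : ℝ}
    {M : ℕ} (hB : B.index ≤ M) (hδ : 0 ≤ δ)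
    (h : ∀ z : A, (({α : Fin r → A | ε < |bmean Φ x B (fun j => z * y j * mon α (e j)) - m|} :
      Set (Fin r → A)).ncard : ℝ) ≤ δ) :
    (({α : Fin r → A | ∃ z : A, ε < |bmean Φ x B (fun j => z * y j * mon α (e j)) - m|} :
      Set (Fin r → A)).ncard : ℝ) ≤ M * δ := by
  classical
  have hsub : ({α : Fin r → A | ∃ z : A, ε < |bmean Φ x B (fun j => z * y j * mon α (e j)) - m|} :
      Set (Fin r → A)) ⊆ ⋃ q : A ⧸ B,
        {α : Fin r → A | ε < |bmean Φ x B (fun j => q.out * y j * mon α (e j)) - m|} := by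
    rintro α ⟨z, hz⟩
    rw [Set.mem_iUnion]
    refine ⟨(z : A ⧸ B), ?_⟩
    obtain ⟨b, hb⟩ := QuotientGroup.mk_out_eq_mul B z
    have e1 : (fun j => ((z : A ⧸ B).out) * y j * mon α (e j)) =
        fun j => (b : A) * (z * y j * mon α (e j)) := by
      funext j
      rw [hb, mul_comm z (b : A)]
      simp only [mul_assoc]
    show ε < |bmean Φ x B (fun j => ((z : A ⧸ B).out) * y j * mon α (e j)) - m|
    rw [e1, bmean_coset Φ x B _ b.2]
    exact hz
  have : Fintype (A ⧸ B) := Fintype.ofFinite _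
  calc (({α : Fin r → A | ∃ z : A, ε < |bmean Φ x B (fun j => z * y j * mon α (e j)) - m|} :
      Set (Fin r → A)).ncard : ℝ) ≤ ((⋃ q : A ⧸ B,
        {α : Fin r → A | ε < |bmean Φ x B (fun j => q.out * y j * mon α (e j)) - m|}).ncard : ℝ) := by
        exact_mod_cast Set.ncard_le_ncard hsub (Set.toFinite _)
    _ ≤ ∑ q : A ⧸ B,
        (({α : Fin r → A | ε < |bmean Φ x B (fun j => q.out * y j * mon α (e j)) - m|} :
          Set (Fin r → A)).ncard : ℝ) := by
        have h2 := Finset.set_ncard_biUnion_le (Finset.univ : Finset (A ⧸ B)) (fun q : A ⧸ B =>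
          {α : Fin r → A | ε < |bmean Φ x B (fun j => q.out * y j * mon α (e j)) - m|})
        simp only [Finset.mem_univ, Set.iUnion_true] at h2
        exact_mod_cast h2
    _ ≤ ∑ _q : A ⧸ B, δ := Finset.sum_le_sum fun q _ => h _
    _ = (B.index : ℝ) * δ := by
        rw [Finset.sum_const, Finset.card_univ, nsmul_eq_mul, Subgroup.index,
          Nat.card_eq_fintype_card]
    _ ≤ M * δ := mul_le_mul_of_nonneg_right (by exact_mod_cast hB) hδ

end Pool.Agent.Helper5.EQ
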