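import Pool.Agent.Helper5.EQ.Count

/-! # Families of points parametrized by a finite abelian group -/

set_option autoImplicit false

open Finset MeasureTheory Filter Topology
open scoped ComplexConjugate BoundedContinuousFunction

namespace Pool.Agent.Helper5.EQ

open Pool.Agent.Q12.CM Pool.Agent.N210.EQ

theorem nsmul_inj' {V : Type} [AddCommGroup V] [IsAddTorsionFree V] {v : V} (hv : v ≠ 0) {n m : ℕ}
    (h : n • v = m • v) : n = m := by
  have h1 : ((n : ℤ) - m) • v = 0 := by rw [sub_smul, natCast_zsmul, natCast_zsmul, h, sub_self]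
  have := (IsAddTorsionFree.zsmul_eq_zero_iff_left hv).1 h1
  omega

/-- finitely many nonzero homomorphisms to torsion free groups have a common non-zero -/
theorem exists_all_ne {ι Λ : Type} [AddCommGroup Λ] {V : ι → Type} [∀ j, AddCommGroup (V j)]
    [∀ j, IsAddTorsionFree (V j)] (l : ∀ j, Λ →+ V j) (T : Finset ι) (h : ∀ j ∈ T, l j ≠ 0) :
    ∃ x, ∀ j ∈ T, l j x ≠ 0 := by
  classical
  induction T using Finset.induction_on with
  | empty => exact ⟨0, by simp⟩
  | insert j T hj ih =>
    obtain ⟨x, hx⟩ := ih fun k hk => h k (Finset.mem_insert_of_mem hk)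
    have h1 := h j (Finset.mem_insert_self j T)
    obtain ⟨x', hx'⟩ : ∃ x', l j x' ≠ 0 := by
      by_contra hc
      push Not at hc
      exact h1 (AddMonoidHom.ext hc)
    -- x + n x'
    by_contra hc
    push Not at hc
    have h2 : ∀ n : ℕ, ∃ k ∈ insert j T, l k (x' + n • x) = 0 := fun n => by
      obtain ⟨k, hk, hk0⟩ := hc (x' + n • x)
      exact ⟨k, hk, hk0⟩
    by_cases hjx : l j x = 0
    · -- j is always good
      choose k hk hk0 using h2
      have hkT : ∀ n, k n ∈ T := fun n => by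
        rcases Finset.mem_insert.1 (hk n) with h3 | h3
        · exfalso
          have h4 := hk0 n
          rw [h3, map_add, map_nsmul, hjx, smul_zero, add_zero] at h4
          exact hx' h4
        · exact h3
      have hinj : Function.Injective fun n : ℕ => (⟨k n, hkT n⟩ : T) := by
        intro n n' hn
        have h3 : k n = k n' := congrArg Subtype.val hn
        have h4 := hk0 n
        have h5 := hk0 n'
        rw [← h3] at h5
        rw [map_add, map_nsmul] at h4 h5
        have h6 : n • l (k n) x = n' • l (k n) x := by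
          rw [← add_right_inj (l (k n) x'), h4, h5]
        exact nsmul_inj' (hx _ (hkT n)) h6
      exact not_injective_infinite_finite _ hinj
    · choose k hk hk0 using h2
      have hinj : Function.Injective fun n : ℕ => (⟨k n, hk n⟩ : (insert j T : Finset ι)) := by
        intro n n' hn
        have h3 : k n = k n' := congrArg Subtype.val hn
        have h4 := hk0 n
        have h5 := hk0 n'
        rw [← h3] at h5
        rw [map_add, map_nsmul] at h4 h5
        have h6 : n • l (k n) x = n' • l (k n) x := by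
          rw [← add_right_inj (l (k n) x'), h4, h5]
        have h7 : l (k n) x ≠ 0 := by
          rcases Finset.mem_insert.1 (hk n) with h3 | h3
          · rw [h3]
            exact hjx
          · exact hx _ h3
        exact nsmul_inj' h7 h6
      exact not_injective_infinite_finite _ hinj


variable {I : Type} {F : Filter I} {ι : Type} {Y : ι → Type} [∀ j, TopologicalSpace (Y j)]
  [∀ j, MeasurableSpace (Y j)] [∀ j, BorelSpace (Y j)]

/-- a finite family of points, with the parameters in a product of two groups -/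
structure Fa (Y : ι → Type) where
  B : Type
  [gB : CommGroup B]
  [fB : Fintype B]
  A : Type
  [gA : CommGroup A]
  [fA : Fintype A]
  X : ∀ j, B × A → Y j

attribute [instance] Fa.gB Fa.fB Fa.gA Fa.fA

/-- the family as an orbit -/
noncomputable def Fa.orb (s : Fa Y) : Orb Y := finOrb s.X

omit [∀ j, TopologicalSpace (Y j)] [∀ j, BorelSpace (Y j)] in
theorem Fa.sym (s : Fa Y) {b : ∀ j, Y j → Y j} (γ : s.B × s.A) {J : Finset ι}
    (h : ∀ j ∈ J, ∀ ω, s.X j (γ * ω) = b j (s.X j ω)) :
    Sym s.orb J b (Equiv.mulLeft γ : s.B × s.A → s.B × s.A) :=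
  ⟨preserves_unif (A := s.B × s.A) (Equiv.mulLeft γ), fun j hj ω => h j hj ω⟩

/-- **The second moment.** -/
theorem Fa.second_moment [Fintype ι] {s : I → Fa Y} {b : ∀ j, Y j → Y j}
    (hb : ∀ j, Continuous (b j)) {μ : ∀ j, Measure (Y j)} [∀ j, IsProbabilityMeasure (μ j)]
    (hpres : ∀ j, MeasurePreserving (b j) (μ j) (μ j)) (hmix : ∀ j, WeakMix (μ j) (b j))
    (hJ : Joint F μ (fun i => (s i).orb) univ)
    (hsym : ∀ i, ∃ β : (s i).B, ∀ j ω, (s i).X j ((β, 1) * ω) = b j ((s i).X j ω))
    {S : ι → Type} [∀ j, TopologicalSpace (S j)] [∀ j, T2Space (S j)]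
    [∀ j, LocallyCompactSpace (S j)] [∀ j, SecondCountableTopology (S j)]
    [∀ j, MeasurableSpace (S j)] [∀ j, BorelSpace (S j)] (proj : ∀ j, Y j → S j)
    (hproj : ∀ j, Continuous (proj j)) (Φ : (∀ j, S j) → ℝ) (hc : Continuous Φ)
    (hs : HasCompactSupport Φ) {ε : ℝ} (hε : 0 < ε) :
    ∀ᶠ i in F, (∑ α : (s i).A, ((∑ β : (s i).B, Φ (fun j => proj j ((s i).X j (β, α)))) /
        Fintype.card (s i).B -
        ∫ z, Φ z ∂(Measure.pi fun j => (μ j).map (proj j))) ^ 2) / Fintype.card (s i).A ≤ ε := by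
  classical
  obtain ⟨C, hC⟩ := hc.bounded_above_of_compact_support hs
  set m : ℝ := ∫ z, Φ z ∂(Measure.pi fun j => (μ j).map (proj j)) with hm
  have hprob : ∀ j, IsProbabilityMeasure ((μ j).map (proj j)) := fun j =>
    Measure.isProbabilityMeasure_map (hproj j).measurable.aemeasurable
  have hC0 : 0 ≤ C := by
    have h2 : ∀ j, Nonempty (S j) := fun j => by
      by_contra h
      rw [not_nonempty_iff] at h
      have h1 : ((μ j).map (proj j)) Set.univ = 1 := measure_univ
      rw [Set.univ_eq_empty_iff.2 h, measure_empty] at h1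
      exact zero_ne_one h1
    exact (norm_nonneg _).trans (hC fun j => (h2 j).some)
  have hmC : |m| ≤ C := by
    have := norm_integral_le_of_norm_le_const
      (μ := Measure.pi fun j => (μ j).map (proj j)) (f := fun z => Φ z)
      (C := C) (Eventually.of_forall fun z => hC z)
    simpa using this
  have h2 := conditional_weak (F := F) (s := fun i => (s i).orb) (μ := μ)
    (b := b) hb hpres hmix hJ proj hproj Φ hc hs (K := C + C) (by positivity) hε
  filter_upwards [h2] with i hi
  obtain ⟨β0, hβ0⟩ := hsym i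
  have hγ := (s i).sym (b := b) (β0, 1) (J := univ) (fun j _ ω => hβ0 j ω)
  have hcardB : (0 : ℝ) < Fintype.card (s i).B := by exact_mod_cast Fintype.card_pos
  have hA0 : (0 : ℝ) < Fintype.card (s i).A := by exact_mod_cast Fintype.card_pos
  set D : (s i).A → ℝ := fun α => (∑ β : (s i).B, Φ (fun j => proj j ((s i).X j (β, α)))) /
        Fintype.card (s i).B - m with hD
  have hDb : ∀ α, |D α| ≤ C + C := by
    intro α
    refine (abs_sub _ _).trans (add_le_add ?_ hmC)
    rw [abs_div, abs_of_pos hcardB, div_le_iff₀ hcardB]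
    refine (Finset.abs_sum_le_sum_abs _ _).trans ?_
    calc ∑ β : (s i).B, |Φ (fun j => proj j ((s i).X j (β, α)))| ≤ ∑ _b : (s i).B, C :=
          Finset.sum_le_sum fun b _ => hC _
      _ = C * Fintype.card (s i).B := by
          rw [Finset.sum_const, Finset.card_univ, nsmul_eq_mul, mul_comm]
  have h3 := hi _ hγ (fun ω => D ω.2) measurable_from_top (fun ω => hDb ω.2)
    (fun ω : (s i).B × (s i).A => congrArg D (one_mul ω.2))
  have hcard : (Fintype.card ((s i).B × (s i).A) : ℝ) =
      Fintype.card (s i).B * Fintype.card (s i).A := by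
    rw [Fintype.card_prod]
    push_cast
    ring
  have e1 : ∫ ω, D ω.2 * Φ (fun j => proj j ((s i).orb.X j ω)) ∂((s i).orb).P =
      (∑ α, D α * (D α + m)) / Fintype.card (s i).A := by
    have e2 := integral_unif_real (A := (s i).B × (s i).A)
      (fun ω => D ω.2 * Φ (fun j => proj j ((s i).X j ω)))
    refine Eq.trans e2 ?_
    rw [Fintype.sum_prod_type_right, hcard]
    have e3 : ∀ α, ∑ β : (s i).B, D α * Φ (fun j => proj j ((s i).X j (β, α))) =
        D α * ((D α + m) * Fintype.card (s i).B) := by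
      intro α
      rw [← Finset.mul_sum]
      congr 1
      rw [hD]
      simp only
      rw [sub_add_cancel, div_mul_cancel₀ _ hcardB.ne']
    rw [Finset.sum_congr rfl fun α _ => e3 α, div_eq_div_iff (mul_pos hcardB hA0).ne' hA0.ne',
      Finset.sum_mul, Finset.sum_mul]
    refine Finset.sum_congr rfl fun α _ => ?_
    ring
  have e4 : ∫ ω, D ω.2 ∂((s i).orb).P = (∑ α, D α) / Fintype.card (s i).A := by
    have e2 := integral_unif_real (A := (s i).B × (s i).A) (fun ω => D ω.2)
    refine Eq.trans e2 ?_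
    rw [Fintype.sum_prod_type_right, hcard]
    have e3 : ∀ α : (s i).A, ∑ _b : (s i).B, D α = D α * Fintype.card (s i).B := by
      intro α
      rw [Finset.sum_const, Finset.card_univ, nsmul_eq_mul, mul_comm]
    rw [Finset.sum_congr rfl fun α _ => e3 α, ← Finset.sum_mul,
      div_eq_div_iff (mul_pos hcardB hA0).ne' hA0.ne']
    ring
  have e5 : (∑ α, D α * (D α + m)) / Fintype.card (s i).A -
      (∑ α, D α) / Fintype.card (s i).A * m = (∑ α, D α ^ 2) / Fintype.card (s i).A := by
    rw [div_mul_eq_mul_div, ← sub_div, Finset.sum_mul, ← Finset.sum_sub_distrib]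
    congr 1
    exact Finset.sum_congr rfl fun α _ => by ring
  have h4 : |(∑ α, D α ^ 2) / Fintype.card (s i).A| ≤ ε := by
    rw [← e5, ← e1, ← e4]
    exact h3
  exact (le_abs_self _).trans h4

/-- the proportion of the exceptional parameters -/
theorem Fa.almost_all [Fintype ι] {s : I → Fa Y} {b : ∀ j, Y j → Y j}
    (hb : ∀ j, Continuous (b j)) {μ : ∀ j, Measure (Y j)} [∀ j, IsProbabilityMeasure (μ j)]
    (hpres : ∀ j, MeasurePreserving (b j) (μ j) (μ j)) (hmix : ∀ j, WeakMix (μ j) (b j))
    (hJ : Joint F μ (fun i => (s i).orb) univ)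
    (hsym : ∀ i, ∃ β : (s i).B, ∀ j ω, (s i).X j ((β, 1) * ω) = b j ((s i).X j ω))
    {S : ι → Type} [∀ j, TopologicalSpace (S j)] [∀ j, T2Space (S j)]
    [∀ j, LocallyCompactSpace (S j)] [∀ j, SecondCountableTopology (S j)]
    [∀ j, MeasurableSpace (S j)] [∀ j, BorelSpace (S j)] (proj : ∀ j, Y j → S j)
    (hproj : ∀ j, Continuous (proj j)) (Φ : (∀ j, S j) → ℝ) (hc : Continuous Φ)
    (hs : HasCompactSupport Φ) {ε : ℝ} (hε : 0 < ε) :
    Tendsto (fun i => (({α : (s i).A | ε < |(∑ β : (s i).B, Φ (fun j => proj j ((s i).X j (β, α)))) /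
        Fintype.card (s i).B - ∫ z, Φ z ∂(Measure.pi fun j => (μ j).map (proj j))|} :
        Set (s i).A).ncard : ℝ) / Fintype.card (s i).A) F (𝓝 0) := by
  rw [Metric.tendsto_nhds]
  intro δ hδ
  have h1 := Fa.second_moment (F := F) hb hpres hmix hJ hsym proj hproj Φ hc hs
    (ε := δ / 2 * ε ^ 2) (by positivity)
  filter_upwards [h1] with i hi
  have h2 := chebyshev _ hε hi
  have hA0 : (0 : ℝ) < Fintype.card (s i).A := by exact_mod_cast Fintype.card_pos
  rw [dist_zero_right, Real.norm_of_nonneg (by positivity), div_lt_iff₀ hA0]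
  refine lt_of_le_of_lt h2 ?_
  rw [mul_div_assoc, div_self (by positivity), mul_one]
  exact mul_lt_mul_of_pos_right (half_lt_self hδ) hA0

omit [∀ j, BorelSpace (Y j)] in
/-- conversely, if the orbits of almost all points are equidistributed, then so is the family -/
theorem Fa.converse [Fintype ι] {s : I → Fa Y} {μ : ∀ j, Measure (Y j)}
    [∀ j, IsProbabilityMeasure (μ j)] (Φ : (∀ j, Y j) → ℝ) (hc : Continuous Φ)
    (hs : HasCompactSupport Φ)
    (h : ∀ ε : ℝ, 0 < ε → Tendsto (fun i => (({α : (s i).A |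
        ε < |(∑ β : (s i).B, Φ (fun j => (s i).X j (β, α))) /
        Fintype.card (s i).B - ∫ z, Φ z ∂(Measure.pi μ)|} :
        Set (s i).A).ncard : ℝ) / Fintype.card (s i).A) F (𝓝 0)) :
    Tendsto (fun i => ∫ ω, Φ (fun j => (s i).orb.X j ω) ∂(s i).orb.P) F
      (𝓝 (∫ y, Φ y ∂(Measure.pi μ))) := by
  classical
  obtain ⟨C, hC⟩ := hc.bounded_above_of_compact_support hs
  set m : ℝ := ∫ z, Φ z ∂(Measure.pi μ) with hm
  have hC0 : 0 ≤ C := by
    have h2 : ∀ j, Nonempty (Y j) := fun j => by
      by_contra h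
      rw [not_nonempty_iff] at h
      have h1 : (μ j) Set.univ = 1 := measure_univ
      rw [Set.univ_eq_empty_iff.2 h, measure_empty] at h1
      exact zero_ne_one h1
    exact (norm_nonneg _).trans (hC fun j => (h2 j).some)
  have hmC : |m| ≤ C := by
    have := norm_integral_le_of_norm_le_const
      (μ := Measure.pi μ) (f := fun z => Φ z)
      (C := C) (Eventually.of_forall fun z => hC z)
    simpa using this
  rw [Metric.tendsto_nhds]
  intro δ hδ
  have h1 := (Metric.tendsto_nhds.1 (h (δ / 4) (by positivity))) (δ / (4 * (C + C + 1)))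
    (by positivity)
  filter_upwards [h1] with i hi
  have hcardB : (0 : ℝ) < Fintype.card (s i).B := by exact_mod_cast Fintype.card_pos
  have hA0 : (0 : ℝ) < Fintype.card (s i).A := by exact_mod_cast Fintype.card_pos
  set D : (s i).A → ℝ := fun α => (∑ β : (s i).B, Φ (fun j => (s i).X j (β, α))) /
        Fintype.card (s i).B - m with hD
  have hDb : ∀ α, |D α| ≤ C + C := by
    intro α
    refine (abs_sub _ _).trans (add_le_add ?_ hmC)
    rw [abs_div, abs_of_pos hcardB, div_le_iff₀ hcardB]
    refine (Finset.abs_sum_le_sum_abs _ _).trans ?_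
    calc ∑ β : (s i).B, |Φ (fun j => (s i).X j (β, α))| ≤ ∑ _b : (s i).B, C :=
          Finset.sum_le_sum fun b _ => hC _
      _ = C * Fintype.card (s i).B := by
          rw [Finset.sum_const, Finset.card_univ, nsmul_eq_mul, mul_comm]
  have hcard : (Fintype.card ((s i).B × (s i).A) : ℝ) =
      Fintype.card (s i).B * Fintype.card (s i).A := by
    rw [Fintype.card_prod]
    push_cast
    ring
  have e1 : ∫ ω, Φ (fun j => (s i).orb.X j ω) ∂((s i).orb).P - m =
      (∑ α, D α) / Fintype.card (s i).A := by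
    have e2 := integral_unif_real (A := (s i).B × (s i).A)
      (fun ω => Φ (fun j => (s i).X j ω))
    have e3 : ∫ ω, Φ (fun j => (s i).orb.X j ω) ∂((s i).orb).P =
      (∑ ω, Φ (fun j => (s i).X j ω)) / Fintype.card ((s i).B × (s i).A) := e2
    rw [e3, Fintype.sum_prod_type_right, hcard]
    have e4 : ∀ α, ∑ β : (s i).B, Φ (fun j => (s i).X j (β, α)) =
        (D α + m) * Fintype.card (s i).B := by
      intro α
      rw [hD]
      simp only
      rw [sub_add_cancel, div_mul_cancel₀ _ hcardB.ne']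
    rw [Finset.sum_congr rfl fun α _ => e4 α, ← Finset.sum_mul, Finset.sum_add_distrib,
      Finset.sum_const, Finset.card_univ, nsmul_eq_mul]
    field_simp
    ring
  rw [Real.dist_eq, e1, abs_div, abs_of_pos hA0, div_lt_iff₀ hA0]
  rw [dist_zero_right, Real.norm_of_nonneg (by positivity), div_lt_iff₀ hA0] at hi
  have e5 : ({α : (s i).A | δ / 4 < |D α|} : Set (s i).A) =
      ((univ.filter fun α => δ / 4 < |D α| : Finset (s i).A) : Set (s i).A) := by
    ext a
    simp
  have hi2 : ((univ.filter fun α => δ / 4 < |D α|).card : ℝ) <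
      δ / (4 * (C + C + 1)) * Fintype.card (s i).A := by
    have h5 := hi
    rw [show {α : (s i).A | δ / 4 < |(∑ β : (s i).B, Φ fun j => (s i).X j (β, α)) /
      Fintype.card (s i).B - m|} = {α : (s i).A | δ / 4 < |D α|} from rfl, e5,
      Set.ncard_coe_finset] at h5
    exact h5
  calc |∑ α, D α| ≤ ∑ α, |D α| := Finset.abs_sum_le_sum_abs _ _
    _ ≤ ∑ α, (δ / 4 + if δ / 4 < |D α| then C + C else 0) := by
        refine Finset.sum_le_sum fun α _ => ?_
        split_ifs with h6
        · linarith [hDb α]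
        · linarith [not_lt.1 h6]
    _ = δ / 4 * Fintype.card (s i).A +
        (univ.filter fun α => δ / 4 < |D α|).card * (C + C) := by
        rw [Finset.sum_add_distrib, Finset.sum_const, Finset.card_univ, nsmul_eq_mul,
          ← Finset.sum_filter, Finset.sum_const, nsmul_eq_mul]
        ring
    _ ≤ δ / 4 * Fintype.card (s i).A +
        (δ / (4 * (C + C + 1)) * Fintype.card (s i).A) * (C + C) := by
        gcongr
    _ < δ * Fintype.card (s i).A := by
        have h7 : δ / (4 * (C + C + 1)) * (C + C) ≤ δ / 4 := by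
          rw [div_mul_eq_mul_div, div_le_div_iff₀ (by positivity) (by norm_num)]
          nlinarith
        nlinarith

/-- averages over the image of a homomorphism -/
theorem sum_hom {Γ G : Type} [CommGroup Γ] [Fintype Γ] [CommGroup G] (h : Γ →* G)
    [Fintype h.range] (g : G → ℂ) :
    (∑ ω, g (h ω)) / Fintype.card Γ = (∑ x : h.range, g x) / Fintype.card h.range := by
  have h1 : ∀ x : h.range, ∑ ω, g (h ω) = ∑ ω, g (h ω * x) := by
    rintro ⟨_, ω0, rfl⟩
    rw [← Equiv.sum_comp (Equiv.mulRight ω0) (fun ω => g (h ω))]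
    refine Finset.sum_congr rfl fun ω _ => ?_
    rw [Equiv.coe_mulRight, map_mul]
  have h2 : (Fintype.card h.range : ℂ) * ∑ ω, g (h ω) =
      (Fintype.card Γ : ℂ) * ∑ x : h.range, g x := by
    calc (Fintype.card h.range : ℂ) * ∑ ω, g (h ω) =
        ∑ _x : h.range, ∑ ω, g (h ω) := by
          rw [Finset.sum_const, Finset.card_univ, nsmul_eq_mul]
      _ = ∑ x : h.range, ∑ ω, g (h ω * x) := Finset.sum_congr rfl fun x _ => h1 x
      _ = ∑ ω, ∑ x : h.range, g (h ω * x) := Finset.sum_comm
      _ = ∑ _ω : Γ, ∑ x : h.range, g x := by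
          refine Finset.sum_congr rfl fun ω _ => ?_
          exact Equiv.sum_comp (Equiv.mulLeft (⟨h ω, ω, rfl⟩ : h.range)) (fun x : h.range => g x)
      _ = (Fintype.card Γ : ℂ) * ∑ x : h.range, g x := by
          rw [Finset.sum_const, Finset.card_univ, nsmul_eq_mul]
  have hG : (Fintype.card Γ : ℂ) ≠ 0 := by
    exact_mod_cast Fintype.card_ne_zero
  have hGr : (Fintype.card h.range : ℂ) ≠ 0 := by
    exact_mod_cast Fintype.card_ne_zero
  rw [div_eq_div_iff hG hGr]
  linear_combination h2

/-- equidistribution of one coordinate of a family, from the equidistribution of the packets -/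
theorem Fa.single {s : ℕ → Fa Y} {μ : ∀ j, Measure (Y j)} [∀ j, IsProbabilityMeasure (μ j)] (j : ι)
    {a : Y j → Y j} (ha : Continuous a) (hpres : MeasurePreserving a (μ j) (μ j))
    (hmix : WeakMix (μ j) a) {G : ℕ → Type} [∀ i, CommGroup (G i)] [∀ i, Fintype (G i)]
    (c : ∀ i, G i) (X : ∀ i, G i → Y j) (hX : ∀ i g, X i (c i * g) = a (X i g))
    (hbase : ∀ f : Y j →ᵇ ℂ, Tendsto (fun i => (∑ g, f (X i g)) / Fintype.card (G i)) atTop
      (𝓝 (∫ y, f y ∂(μ j)))) (h : ∀ i, (s i).B × (s i).A →* G i) (y : ∀ i, G i) (M : ℕ)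
    (hM : ∀ i, (h i).range.index ≤ M) (hs : ∀ i ω, (s i).X j ω = X i (h i ω * y i)) :
    Joint atTop μ (fun i => (s i).orb) {j} := by
  classical
  intro f
  simp only [Finset.prod_singleton]
  rw [Metric.tendsto_nhds]
  intro ε hε
  set m : ℂ := ∫ y, f j y ∂(μ j) with hm
  have h1 := coset_mean (ι := Unit) (Y := fun _ => Y j) (G := G) (a := fun _ => a) (c := c)
    (X := fun i _ => X i) (fun _ => ha) (μ := fun _ => μ j) (fun _ => hpres) (fun _ => hmix)
    (fun i _ g => hX i g) (fun _ => hbase) M ()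
    (f j - BoundedContinuousFunction.const (Y j) m) (integral_sub_mean (μ j) (f j)) (half_pos hε)
  filter_upwards [h1] with i hi
  rw [dist_eq_norm]
  have e2 := integral_unif (A := (s i).B × (s i).A) (fun ω => f j ((s i).X j ω))
  have e3 : ∫ ω, f j ((s i).orb.X j ω) ∂(s i).orb.P =
      (∑ ω : (s i).B × (s i).A, f j ((s i).X j ω)) / Fintype.card ((s i).B × (s i).A) := e2
  have e4 := sum_hom (h i) (fun g => f j (X i (g * y i)))
  have h2 := hi (h i).range (y i) (hM i)
  have hR0 : (Fintype.card (h i).range : ℂ) ≠ 0 := by exact_mod_cast Fintype.card_ne_zero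
  have e6 : ∀ z, (f j - BoundedContinuousFunction.const (Y j) m) z = f j z - m := fun z => rfl
  have e5 : (∑ b : (h i).range, (f j - BoundedContinuousFunction.const (Y j) m)
        (X i (b * y i))) / (Fintype.card (h i).range : ℂ) =
        (∑ b : (h i).range, f j (X i (b * y i))) / Fintype.card (h i).range - m := by
    simp only [e6, Finset.sum_sub_distrib, Finset.sum_const, Finset.card_univ, nsmul_eq_mul]
    field_simp
  rw [e5] at h2
  have e7 : (∑ ω : (s i).B × (s i).A, f j ((s i).X j ω)) = ∑ ω, f j (X i (h i ω * y i)) :=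
    Finset.sum_congr rfl fun ω _ => by rw [hs]
  rw [e3, e7, e4]
  exact lt_of_le_of_lt h2 (half_lt_self hε)

/-- the mean over the orbit of the point with the parameter `α` -/
noncomputable def Fa.mean (s : Fa Y) {S : ι → Type} (proj : ∀ j, Y j → S j) (Φ : (∀ j, S j) → ℝ)
    (α : s.A) : ℝ :=
  (∑ᶠ β : s.B, Φ (fun j => proj j (s.X j (β, α)))) / Nat.card s.B

omit [∀ j, TopologicalSpace (Y j)] [∀ j, MeasurableSpace (Y j)] [∀ j, BorelSpace (Y j)] in
theorem Fa.mean_eq (s : Fa Y) {S : ι → Type} (proj : ∀ j, Y j → S j) (Φ : (∀ j, S j) → ℝ)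
    (α : s.A) : s.mean proj Φ α =
      (∑ β : s.B, Φ (fun j => proj j (s.X j (β, α)))) / Fintype.card s.B := by
  unfold Fa.mean
  rw [finsum_eq_sum_of_fintype, Nat.card_eq_fintype_card]

omit [∀ j, TopologicalSpace (Y j)] [∀ j, BorelSpace (Y j)] in
theorem Fa.integral_eq (s : Fa Y) (Φ : s.B × s.A → ℝ) :
    ∫ ω, Φ ω ∂s.orb.P = (∑ᶠ ω : s.B × s.A, Φ ω) / Nat.card (s.B × s.A) := by
  rw [finsum_eq_sum_of_fintype, Nat.card_eq_fintype_card]
  exact integral_unif_real (A := s.B × s.A) Φ

/-- the proportion of the exceptional parameters -/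
theorem Fa.almost_all' [Fintype ι] {s : I → Fa Y} {b : ∀ j, Y j → Y j}
    (hb : ∀ j, Continuous (b j)) {μ : ∀ j, Measure (Y j)} [∀ j, IsProbabilityMeasure (μ j)]
    (hpres : ∀ j, MeasurePreserving (b j) (μ j) (μ j)) (hmix : ∀ j, WeakMix (μ j) (b j))
    (hJ : Joint F μ (fun i => (s i).orb) univ)
    (hsym : ∀ i, ∃ β : (s i).B, ∀ j ω, (s i).X j ((β, 1) * ω) = b j ((s i).X j ω))
    {S : ι → Type} [∀ j, TopologicalSpace (S j)] [∀ j, T2Space (S j)]
    [∀ j, LocallyCompactSpace (S j)] [∀ j, SecondCountableTopology (S j)]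
    [∀ j, MeasurableSpace (S j)] [∀ j, BorelSpace (S j)] (proj : ∀ j, Y j → S j)
    (hproj : ∀ j, Continuous (proj j)) (Φ : (∀ j, S j) → ℝ) (hc : Continuous Φ)
    (hs : HasCompactSupport Φ) {ε : ℝ} (hε : 0 < ε) :
    Tendsto (fun i => (({α : (s i).A | ε < |(s i).mean proj Φ α -
        ∫ z, Φ z ∂(Measure.pi fun j => (μ j).map (proj j))|} :
        Set (s i).A).ncard : ℝ) / Nat.card (s i).A) F (𝓝 0) := by
  have h := Fa.almost_all (F := F) hb hpres hmix hJ hsym proj hproj Φ hc hs hε
  refine (tendsto_congr fun i => ?_).2 h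
  rw [Nat.card_eq_fintype_card]
  simp only [Fa.mean_eq]

omit [∀ j, BorelSpace (Y j)] in
theorem Fa.converse' [Fintype ι] {s : I → Fa Y} {μ : ∀ j, Measure (Y j)}
    [∀ j, IsProbabilityMeasure (μ j)] (Φ : (∀ j, Y j) → ℝ) (hc : Continuous Φ)
    (hs : HasCompactSupport Φ)
    (h : ∀ ε : ℝ, 0 < ε → Tendsto (fun i => (({α : (s i).A |
        ε < |(s i).mean (fun _ y => y) Φ α - ∫ z, Φ z ∂(Measure.pi μ)|} :
        Set (s i).A).ncard : ℝ) / Nat.card (s i).A) F (𝓝 0)) :
    Tendsto (fun i => ∫ ω, Φ (fun j => (s i).orb.X j ω) ∂(s i).orb.P) F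
      (𝓝 (∫ y, Φ y ∂(Measure.pi μ))) := by
  refine Fa.converse Φ hc hs fun ε hε => ?_
  refine (tendsto_congr fun i => ?_).1 (h ε hε)
  rw [Nat.card_eq_fintype_card]
  simp only [Fa.mean_eq]

end Pool.Agent.Helper5.EQ
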