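import Pool.Agent.Helper5.EQ.Restrict

/-! # Finite orbits -/

set_option autoImplicit false

open Finset MeasureTheory Filter Topology
open scoped ComplexConjugate BoundedContinuousFunction

namespace Pool.Agent.Helper5.EQ

open Pool.Agent.Q12.CM Pool.Agent.N210.EQ

/-- the powers of a weakly mixing map are weakly mixing -/
theorem weakMix_iterate {Y : Type} [TopologicalSpace Y] [MeasurableSpace Y] {μ : Measure Y}
    {a : Y → Y} (h : WeakMix μ a) {n : ℕ} (hn : 0 < n) : WeakMix μ a^[n] := by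
  intro f
  set u : ℕ → ℝ := fun l =>
    ‖∫ y, f (a^[l] y) * conj (f y) ∂μ - (∫ y, f y ∂μ) * conj (∫ y, f y ∂μ)‖ with hu
  have h1 : Tendsto (fun k : ℕ => (n : ℝ) * ((∑ l ∈ range (n * k), u l) / ((n * k : ℕ) : ℝ))) atTop
      (𝓝 ((n : ℝ) * 0)) := by
    refine Tendsto.const_mul _ ?_
    exact (h f).comp (tendsto_id.const_mul_atTop' hn)
  rw [mul_zero] at h1
  refine squeeze_zero (fun k => by positivity) (fun k => ?_) h1
  have hn' : (0 : ℝ) < n := by exact_mod_cast hn
  rcases Nat.eq_zero_or_pos k with rfl | hk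
  · simp
  have hk' : (0 : ℝ) < k := by exact_mod_cast hk
  have e1 : (n : ℝ) * ((∑ l ∈ range (n * k), u l) / ((n * k : ℕ) : ℝ)) =
      (∑ l ∈ range (n * k), u l) / k := by
    push_cast
    field_simp
  rw [e1]
  refine div_le_div_of_nonneg_right ?_ hk'.le
  have e2 : ∀ l, (a^[n])^[l] = a^[n * l] := fun l => (Function.iterate_mul a n l).symm
  simp only [e2]
  calc ∑ l ∈ range k, u (n * l) = ∑ l ∈ (range k).image (fun l => n * l), u l := by
        rw [Finset.sum_image]
        intro l _ l' _ hl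
        exact Nat.eq_of_mul_eq_mul_left hn hl
    _ ≤ ∑ l ∈ range (n * k), u l := by
        refine Finset.sum_le_sum_of_subset_of_nonneg ?_ fun l _ _ => norm_nonneg _
        intro l hl
        obtain ⟨m, hm, rfl⟩ := Finset.mem_image.1 hl
        rw [Finset.mem_range] at hm ⊢
        exact Nat.mul_lt_mul_of_pos_left hm hn

section unif

/-- the uniform distribution of a finite set -/
noncomputable def unif (A : Type) [Fintype A] [Nonempty A] : @Measure A ⊤ :=
  @PMF.toMeasure A ⊤ (PMF.uniformOfFintype A)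

theorem unif_prob (A : Type) [Fintype A] [Nonempty A] : @IsProbabilityMeasure A ⊤ (unif A) := by
  let _ : MeasurableSpace A := ⊤
  exact PMF.toMeasure.isProbabilityMeasure _

theorem integral_unif {A : Type} [Fintype A] [Nonempty A] (f : A → ℂ) :
    @integral A ℂ _ _ ⊤ (unif A) f = (∑ a, f a) / Fintype.card A := by
  let _ : MeasurableSpace A := ⊤
  have : MeasurableSingletonClass A := ⟨fun _ => trivial⟩
  have h := PMF.integral_eq_sum (PMF.uniformOfFintype A) f
  unfold unif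
  rw [h, div_eq_inv_mul, Finset.mul_sum]
  refine Finset.sum_congr rfl fun a _ => ?_
  simp [PMF.uniformOfFintype_apply]

theorem preserves_unif {A : Type} [Fintype A] [Nonempty A] (t : A ≃ A) :
    @MeasurePreserving A A ⊤ ⊤ t (unif A) (unif A) := by
  let _ : MeasurableSpace A := ⊤
  have : MeasurableSingletonClass A := ⟨fun _ => trivial⟩
  have hp := unif_prob A
  refine ⟨measurable_from_top, ?_⟩
  refine Measure.ext_of_singleton fun a => ?_
  rw [Measure.map_apply measurable_from_top MeasurableSpace.measurableSet_top]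
  have e : t ⁻¹' {a} = {t.symm a} := by
    ext b
    simp [Equiv.eq_symm_apply]
  rw [e]
  unfold unif
  rw [PMF.toMeasure_apply_singleton _ _ MeasurableSpace.measurableSet_top,
    PMF.toMeasure_apply_singleton _ _ MeasurableSpace.measurableSet_top]
  simp [PMF.uniformOfFintype_apply]

end unif

variable {I : Type} {F : Filter I} {ι : Type} {Y : ι → Type} [∀ j, TopologicalSpace (Y j)]
  [∀ j, MeasurableSpace (Y j)] [∀ j, BorelSpace (Y j)]

/-- the orbit given by maps of a finite set -/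
noncomputable def finOrb {A : Type} [Fintype A] [Nonempty A] (X : ∀ j, A → Y j) : Orb Y :=
  let _ : MeasurableSpace A := ⊤
  have := unif_prob A
  { Ω := A, P := unif A, X := X, measurable := fun _ => measurable_from_top }

/-- the asymptotic independence for functions with compact support on the product -/
theorem conditional_weak [Fintype ι] [DecidableEq ι] {μ : ∀ j, Measure (Y j)}
    [∀ j, IsProbabilityMeasure (μ j)]
    {s : I → Orb Y} {b : ∀ j, Y j → Y j} (hb : ∀ j, Continuous (b j))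
    (hpres : ∀ j, MeasurePreserving (b j) (μ j) (μ j)) (hmix : ∀ j, WeakMix (μ j) (b j))
    (hJ : Joint F μ s univ) {S : ι → Type} [∀ j, TopologicalSpace (S j)] [∀ j, T2Space (S j)]
    [∀ j, LocallyCompactSpace (S j)] [∀ j, SecondCountableTopology (S j)]
    [∀ j, MeasurableSpace (S j)] [∀ j, BorelSpace (S j)] (proj : ∀ j, Y j → S j)
    (hproj : ∀ j, Continuous (proj j)) (Φ : (∀ j, S j) → ℝ) (hc : Continuous Φ)
    (hs : HasCompactSupport Φ) {K : ℝ} (hK : 0 ≤ K) {ε : ℝ} (hε : 0 < ε) :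
    ∀ᶠ i in F, ∀ t, Sym (s i) univ b t → ∀ ψ : (s i).Ω → ℝ, Measurable ψ → (∀ ω, |ψ ω| ≤ K) →
      (∀ ω, ψ (t ω) = ψ ω) → |∫ ω, ψ ω * Φ (fun j => proj j ((s i).X j ω)) ∂(s i).P -
        (∫ ω, ψ ω ∂(s i).P) * ∫ y, Φ y ∂(Measure.pi fun j => (μ j).map (proj j))| ≤ ε := by
  set ν : ∀ j, Measure (S j) := fun j => (μ j).map (proj j) with hν
  have hνp : ∀ j, IsProbabilityMeasure (ν j) := fun j =>
    Measure.isProbabilityMeasure_map (hproj j).measurable.aemeasurable
  have hmeasX : ∀ i, Measurable fun ω => fun j => proj j ((s i).X j ω) := fun i =>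
    measurable_pi_lambda _ fun j => (hproj j).measurable.comp ((s i).measurable j)
  have hmeas : ∀ i (Ψ : (∀ j, S j) → ℝ), Continuous Ψ →
      Measurable fun ω => Ψ (fun j => proj j ((s i).X j ω)) := fun i Ψ hΨ =>
    hΨ.measurable.comp (hmeasX i)
  have hint : ∀ i (ψ : (s i).Ω → ℝ), Measurable ψ → (∀ ω, |ψ ω| ≤ K) →
      ∀ Ψ : (∀ j, S j) → ℝ, Continuous Ψ → ∀ C, (∀ y, |Ψ y| ≤ C) →
      Integrable (fun ω => ψ ω * Ψ (fun j => proj j ((s i).X j ω))) (s i).P := by
    intro i ψ hψm hψ Ψ hΨ C hC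
    refine Integrable.of_bound (hψm.mul (hmeas i Ψ hΨ)).aestronglyMeasurable (K * C)
      (Eventually.of_forall fun ω => ?_)
    rw [Real.norm_eq_abs, abs_mul]
    exact mul_le_mul (hψ ω) (hC _) (abs_nonneg _) hK
  -- products
  have hprod : ∀ φ : ∀ j, S j → ℝ, (∀ j, Continuous (φ j)) → (∀ j, HasCompactSupport (φ j)) →
      ∀ ε : ℝ, 0 < ε → ∀ᶠ i in F, ∀ t, Sym (s i) univ b t → ∀ ψ : (s i).Ω → ℝ, Measurable ψ →
      (∀ ω, |ψ ω| ≤ K) → (∀ ω, ψ (t ω) = ψ ω) →
      |∫ ω, ψ ω * ∏ j, φ j (proj j ((s i).X j ω)) ∂(s i).P -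
        (∫ ω, ψ ω ∂(s i).P) * ∫ y, ∏ j, φ j (y j) ∂(Measure.pi ν)| ≤ ε := by
    intro φ hφ hφs ε hε
    choose C hC using fun j => (hφ j).bounded_above_of_compact_support (hφs j)
    let f : ∀ j, Y j →ᵇ ℂ := fun j => BoundedContinuousFunction.ofNormedAddCommGroup
      (fun y => (φ j (proj j y) : ℂ)) (Complex.continuous_ofReal.comp ((hφ j).comp (hproj j))) (C j)
      (fun y => by rw [Complex.norm_real]; exact hC j _)
    have hf : ∀ j y, f j y = (φ j (proj j y) : ℂ) := fun j y => rfl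
    have h1 := conditional (F := F) (s := s) (K := K) (ε := ε) hb hpres hmix univ
      (fun J' _ => hJ.mono (Finset.subset_univ _)) f hK hε
    filter_upwards [h1] with i hi t ht ψ hψm hψ hinv
    have h2 := hi t ht (fun ω => (ψ ω : ℂ)) (Complex.measurable_ofReal.comp hψm)
      (fun ω => by rw [Complex.norm_real]; exact hψ ω) (fun ω => by rw [hinv])
    have e1 : ∏ j, ∫ y, f j y ∂(μ j) = ((∫ y, ∏ j, φ j (y j) ∂(Measure.pi ν) : ℝ) : ℂ) := by
      rw [integral_fintype_prod_eq_prod]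
      push_cast
      refine Finset.prod_congr rfl fun j _ => ?_
      rw [hν, integral_map (hproj j).measurable.aemeasurable
        (hφ j).measurable.aestronglyMeasurable, ← integral_complex_ofReal]
      rfl
    have e2 : ∫ ω, (ψ ω : ℂ) * ∏ j, f j ((s i).X j ω) ∂(s i).P =
        ((∫ ω, ψ ω * ∏ j, φ j (proj j ((s i).X j ω)) ∂(s i).P : ℝ) : ℂ) := by
      rw [← integral_complex_ofReal]
      refine integral_congr_ae (Eventually.of_forall fun ω => ?_)
      simp only [hf]
      push_cast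
      rfl
    have e3 : ∫ ω, (ψ ω : ℂ) ∂(s i).P = ((∫ ω, ψ ω ∂(s i).P : ℝ) : ℂ) := integral_complex_ofReal
    rw [e1, e2, e3, ← Complex.ofReal_mul, ← Complex.ofReal_sub, Complex.norm_real] at h2
    exact h2
  -- combinations
  have hT : ∀ Ψ ∈ Tens S, Continuous Ψ ∧ (∃ C, ∀ y, |Ψ y| ≤ C) ∧ Integrable Ψ (Measure.pi ν) ∧
      ∀ ε : ℝ, 0 < ε → ∀ᶠ i in F, ∀ t, Sym (s i) univ b t → ∀ ψ : (s i).Ω → ℝ, Measurable ψ →
      (∀ ω, |ψ ω| ≤ K) → (∀ ω, ψ (t ω) = ψ ω) →
      |∫ ω, ψ ω * Ψ (fun j => proj j ((s i).X j ω)) ∂(s i).P -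
        (∫ ω, ψ ω ∂(s i).P) * ∫ y, Ψ y ∂(Measure.pi ν)| ≤ ε := by
    intro Ψ hΨ
    unfold Tens at hΨ
    induction hΨ using Submodule.span_induction with
    | mem x hx =>
      obtain ⟨φ, h2, h3, rfl⟩ := hx
      choose C hC using fun j => (h2 j).bounded_above_of_compact_support (h3 j)
      refine ⟨continuous_finsetProd _ fun j _ => (h2 j).comp (continuous_apply j),
        ⟨∏ j, C j, fun y => ?_⟩, integrable_of ν h2 h3, hprod φ h2 h3⟩
      rw [Finset.abs_prod]
      exact Finset.prod_le_prod (fun _ _ => abs_nonneg _) fun j _ => hC j (y j)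
    | zero =>
      refine ⟨continuous_const, ⟨0, fun y => by simp⟩, integrable_zero _ _ _, fun ε hε => ?_⟩
      refine Eventually.of_forall fun i t _ ψ _ _ _ => ?_
      simp [hε.le]
    | add u v _ _ ihu ihv =>
      obtain ⟨cu, ⟨A, hA⟩, iu, tu⟩ := ihu
      obtain ⟨cv, ⟨B, hB⟩, iv, tv⟩ := ihv
      refine ⟨cu.add cv, ⟨A + B, fun y => ?_⟩, iu.add iv, fun ε hε => ?_⟩
      · rw [Pi.add_apply]
        exact (abs_add_le _ _).trans (add_le_add (hA y) (hB y))
      · filter_upwards [tu (ε / 2) (half_pos hε), tv (ε / 2) (half_pos hε)] with i hiu hiv t ht ψ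
          hψm hψ hinv
        have h1 := hiu t ht ψ hψm hψ hinv
        have h2 := hiv t ht ψ hψm hψ hinv
        have e1 : ∫ y, (u + v) y ∂(Measure.pi ν) =
            ∫ y, u y ∂(Measure.pi ν) + ∫ y, v y ∂(Measure.pi ν) := integral_add iu iv
        have e2 : ∫ ω, ψ ω * (u + v) (fun j => proj j ((s i).X j ω)) ∂(s i).P =
            ∫ ω, ψ ω * u (fun j => proj j ((s i).X j ω)) ∂(s i).P +
            ∫ ω, ψ ω * v (fun j => proj j ((s i).X j ω)) ∂(s i).P := by
          rw [← integral_add (hint i ψ hψm hψ u cu A hA) (hint i ψ hψm hψ v cv B hB)]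
          refine integral_congr_ae (Eventually.of_forall fun ω => ?_)
          simp only [Pi.add_apply, mul_add]
        rw [e1, e2]
        rw [abs_le] at h1 h2 ⊢
        constructor <;> nlinarith [h1.1, h1.2, h2.1, h2.2]
    | smul c u _ ihu =>
      obtain ⟨cu, ⟨A, hA⟩, iu, tu⟩ := ihu
      refine ⟨cu.const_smul c, ⟨|c| * A, fun y => ?_⟩, iu.smul c, fun ε hε => ?_⟩
      · rw [Pi.smul_apply, smul_eq_mul, abs_mul]
        exact mul_le_mul_of_nonneg_left (hA y) (abs_nonneg c)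
      · filter_upwards [tu (ε / (|c| + 1)) (by positivity)] with i hiu t ht ψ hψm hψ hinv
        have h1 := hiu t ht ψ hψm hψ hinv
        have e1 : ∫ y, (c • u) y ∂(Measure.pi ν) = c * ∫ y, u y ∂(Measure.pi ν) := by
          simp only [Pi.smul_apply, smul_eq_mul]
          exact integral_const_mul c _
        have e2 : ∫ ω, ψ ω * (c • u) (fun j => proj j ((s i).X j ω)) ∂(s i).P =
            c * ∫ ω, ψ ω * u (fun j => proj j ((s i).X j ω)) ∂(s i).P := by
          rw [← integral_const_mul]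
          refine integral_congr_ae (Eventually.of_forall fun ω => ?_)
          simp only [Pi.smul_apply, smul_eq_mul]
          ring
        rw [e1, e2]
        have e3 : c * ∫ ω, ψ ω * u (fun j => proj j ((s i).X j ω)) ∂(s i).P -
            (∫ ω, ψ ω ∂(s i).P) * (c * ∫ y, u y ∂(Measure.pi ν)) =
            c * (∫ ω, ψ ω * u (fun j => proj j ((s i).X j ω)) ∂(s i).P -
            (∫ ω, ψ ω ∂(s i).P) * ∫ y, u y ∂(Measure.pi ν)) := by ring
        rw [e3, abs_mul]
        refine (mul_le_mul_of_nonneg_left h1 (abs_nonneg c)).trans ?_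
        rw [mul_div_assoc', div_le_iff₀ (by positivity)]
        nlinarith [abs_nonneg c]
  -- the limit
  have hΦint : Integrable Φ (Measure.pi ν) := hc.integrable_of_hasCompactSupport hs
  obtain ⟨CΦ, hCΦ⟩ := hc.bounded_above_of_compact_support hs
  obtain ⟨Ψ, hΨ, hΨε⟩ := dense Φ hc hs (ε := ε / (4 * (K + 1))) (by positivity)
  obtain ⟨hcΨ, ⟨C, hC⟩, hi, ht⟩ := hT Ψ hΨ
  filter_upwards [ht (ε / 4) (by positivity)] with i h2 t ht ψ hψm hψ hinv
  have h5 := h2 t ht ψ hψm hψ hinv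
  have hKε : K * (ε / (4 * (K + 1))) ≤ ε / 4 := by
    rw [mul_div_assoc', div_le_div_iff₀ (by positivity) (by norm_num)]
    nlinarith
  have h3 : |∫ ω, ψ ω * Φ (fun j => proj j ((s i).X j ω)) ∂(s i).P -
      ∫ ω, ψ ω * Ψ (fun j => proj j ((s i).X j ω)) ∂(s i).P| ≤ ε / 4 := by
    rw [← integral_sub (hint i ψ hψm hψ Φ hc CΦ hCΦ) (hint i ψ hψm hψ Ψ hcΨ C hC)]
    have := norm_integral_le_of_norm_le_const (μ := (s i).P)
      (f := fun ω => ψ ω * Φ (fun j => proj j ((s i).X j ω)) -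
        ψ ω * Ψ (fun j => proj j ((s i).X j ω)))
      (C := K * (ε / (4 * (K + 1)))) (Eventually.of_forall fun ω => by
        rw [← mul_sub, Real.norm_eq_abs, abs_mul]
        exact mul_le_mul (hψ ω) (hΨε _) (abs_nonneg _) hK)
    have h6 : |∫ ω, (ψ ω * Φ (fun j => proj j ((s i).X j ω)) -
        ψ ω * Ψ (fun j => proj j ((s i).X j ω))) ∂(s i).P| ≤ K * (ε / (4 * (K + 1))) := by
      simpa using this
    exact h6.trans hKε
  have h4 : |∫ y, Φ y ∂(Measure.pi ν) - ∫ y, Ψ y ∂(Measure.pi ν)| ≤ ε / (4 * (K + 1)) := by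
    rw [← integral_sub hΦint hi]
    have := norm_integral_le_of_norm_le_const (μ := Measure.pi ν) (f := fun y => Φ y - Ψ y)
      (C := ε / (4 * (K + 1))) (Eventually.of_forall fun y => hΨε y)
    simpa using this
  have h6 : |∫ ω, ψ ω ∂(s i).P| ≤ K := by
    have := norm_integral_le_of_norm_le_const (μ := (s i).P) (f := fun ω => ψ ω)
      (C := K) (Eventually.of_forall fun ω => hψ ω)
    simpa using this
  have h7 : |(∫ ω, ψ ω ∂(s i).P) * (∫ y, Φ y ∂(Measure.pi ν) - ∫ y, Ψ y ∂(Measure.pi ν))| ≤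
      ε / 4 := by
    rw [abs_mul]
    exact (mul_le_mul h6 h4 (abs_nonneg _) hK).trans hKε
  rw [mul_sub] at h7
  rw [abs_le] at h3 h5 h7 ⊢
  constructor <;> linarith [h3.1, h3.2, h5.1, h5.2, h7.1, h7.2]

end Pool.Agent.Helper5.EQ
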