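import Pool.Agent.Helper5.EQ.Finite

/-! # Monomials -/

set_option autoImplicit false

open Finset MeasureTheory Filter Topology
open scoped ComplexConjugate BoundedContinuousFunction

namespace Pool.Agent.Helper5.EQ

open Pool.Agent.Q12.CM Pool.Agent.N210.EQ

theorem integral_unif_real {A : Type} [Fintype A] [Nonempty A] (f : A → ℝ) :
    @integral A ℝ _ _ ⊤ (unif A) f = (∑ a, f a) / Fintype.card A := by
  let _ : MeasurableSpace A := ⊤
  have : MeasurableSingletonClass A := ⟨fun _ => trivial⟩
  have h := PMF.integral_eq_sum (PMF.uniformOfFintype A) f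
  unfold unif
  rw [h, div_eq_inv_mul, Finset.mul_sum]
  refine Finset.sum_congr rfl fun a _ => ?_
  simp [PMF.uniformOfFintype_apply]

/-- a linear form which separates finitely many vectors -/
theorem exists_generic {ι : Type} [Finite ι] {r : ℕ} (e : ι → Fin r → ℤ)
    (he : Function.Injective e) :
    ∃ v : Fin r → ℤ, Function.Injective fun j => ∑ s, v s * e j s := by
  classical
  have := Fintype.ofFinite ι
  let P : ι → ι → Polynomial ℤ := fun j k =>
    ∑ s : Fin r, Polynomial.C (e j s - e k s) * Polynomial.X ^ (s : ℕ)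
  have hcoeff : ∀ j k (s : Fin r), (P j k).coeff s = e j s - e k s := by
    intro j k s
    simp only [P, Polynomial.finsetSum_coeff, Polynomial.coeff_C_mul, Polynomial.coeff_X_pow]
    rw [Finset.sum_eq_single s]
    · simp
    · intro b _ hb
      rw [if_neg, mul_zero]
      intro h
      exact hb (Fin.ext h.symm)
    · intro h
      exact absurd (Finset.mem_univ s) h
  have hP : ∀ j k, j ≠ k → P j k ≠ 0 := by
    intro j k hjk h0
    refine hjk (he (funext fun s => ?_))
    have := hcoeff j k s
    rw [h0, Polynomial.coeff_zero] at this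
    linarith
  let T : Polynomial ℤ := ∏ q : ι × ι, if q.1 = q.2 then 1 else P q.1 q.2
  have hT : T ≠ 0 := by
    refine Finset.prod_ne_zero_iff.2 fun q _ => ?_
    split_ifs with h
    · exact one_ne_zero
    · exact hP _ _ h
  obtain ⟨N, hN⟩ : ∃ N : ℤ, T.eval N ≠ 0 := by
    by_contra hcon
    push Not at hcon
    exact hT (Polynomial.funext fun N => by rw [hcon N, Polynomial.eval_zero])
  refine ⟨fun s => N ^ (s : ℕ), fun j k hjk => ?_⟩
  by_contra hne
  have h1 : (P j k).eval N = 0 := by
    simp only [P, Polynomial.eval_finsetSum, Polynomial.eval_mul, Polynomial.eval_C,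
      Polynomial.eval_pow, Polynomial.eval_X]
    simp only at hjk
    have : ∑ s : Fin r, (e j s - e k s) * N ^ (s : ℕ) =
        ∑ s : Fin r, N ^ (s : ℕ) * e j s - ∑ s : Fin r, N ^ (s : ℕ) * e k s := by
      rw [← Finset.sum_sub_distrib]
      exact Finset.sum_congr rfl fun s _ => by ring
    rw [this, hjk, sub_self]
  apply hN
  simp only [T, Polynomial.eval_prod]
  refine Finset.prod_eq_zero (Finset.mem_univ (j, k)) ?_
  rw [if_neg hne, h1]

section mon

variable {G : Type} [CommGroup G] {r : ℕ}

/-- the monomial with the exponents `e` -/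
def mon (α : Fin r → G) (e : Fin r → ℤ) : G := ∏ s, α s ^ e s

lemma mon_mul (α β : Fin r → G) (e : Fin r → ℤ) : mon (α * β) e = mon α e * mon β e := by
  unfold mon
  rw [← Finset.prod_mul_distrib]
  exact Finset.prod_congr rfl fun s _ => by rw [Pi.mul_apply, mul_zpow]

lemma mon_pow (c : G) (v e : Fin r → ℤ) : mon (fun s => c ^ v s) e = c ^ ∑ s, v s * e s := by
  unfold mon
  rw [Finset.prod_congr rfl fun s _ => (zpow_mul c (v s) (e s)).symm]
  induction (univ : Finset (Fin r)) using Finset.induction_on with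
  | empty => simp
  | insert s T hs ih => rw [Finset.prod_insert hs, Finset.sum_insert hs, ih, zpow_add]

/-- the values of a primitive monomial are equidistributed -/
theorem sum_mon [Fintype G] {e : Fin r → ℤ} (he : ∃ u : Fin r → ℤ, ∑ s, u s * e s = 1)
    (h : G → ℂ) :
    (∑ α : Fin r → G, h (mon α e)) / Fintype.card (Fin r → G) = (∑ g, h g) / Fintype.card G := by
  classical
  obtain ⟨u, hu⟩ := he
  have h1 : ∀ g0 : G, ∑ α : Fin r → G, h (mon α e) = ∑ α : Fin r → G, h (mon α e * g0) := by
    intro g0
    have := Equiv.sum_comp (Equiv.mulRight (fun s => g0 ^ u s : Fin r → G)) (fun α => h (mon α e))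
    rw [← this]
    refine Finset.sum_congr rfl fun α _ => ?_
    rw [Equiv.coe_mulRight, mon_mul, mon_pow, hu, zpow_one]
  have h2 : (Fintype.card G : ℂ) * ∑ α : Fin r → G, h (mon α e) =
      (Fintype.card (Fin r → G) : ℂ) * ∑ g, h g := by
    calc (Fintype.card G : ℂ) * ∑ α : Fin r → G, h (mon α e) =
        ∑ _g0 : G, ∑ α : Fin r → G, h (mon α e) := by
          rw [Finset.sum_const, Finset.card_univ, nsmul_eq_mul]
      _ = ∑ g0 : G, ∑ α : Fin r → G, h (mon α e * g0) := Finset.sum_congr rfl fun g0 _ => h1 g0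
      _ = ∑ α : Fin r → G, ∑ g0 : G, h (mon α e * g0) := Finset.sum_comm
      _ = ∑ _α : Fin r → G, ∑ g : G, h g := by
          refine Finset.sum_congr rfl fun α _ => ?_
          exact Equiv.sum_comp (Equiv.mulLeft (mon α e)) h
      _ = (Fintype.card (Fin r → G) : ℂ) * ∑ g, h g := by
          rw [Finset.sum_const, Finset.card_univ, nsmul_eq_mul]
  have hG : (Fintype.card G : ℂ) ≠ 0 := by
    exact_mod_cast Fintype.card_ne_zero
  have hGr : (Fintype.card (Fin r → G) : ℂ) ≠ 0 := by
    exact_mod_cast Fintype.card_ne_zero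
  rw [div_eq_div_iff hGr hG]
  linear_combination h2

end mon

end Pool.Agent.Helper5.EQ
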