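import Pool.Agent.Helper5.EQ.Monom

/-! # Orbits of points with multiplicative relations -/

set_option autoImplicit false

open Finset MeasureTheory Filter Topology
open scoped ComplexConjugate BoundedContinuousFunction

namespace Pool.Agent.Helper5.EQ

open Pool.Agent.Q12.CM Pool.Agent.N210.EQ

variable {ι : Type} {Y : ι → Type} [∀ j, TopologicalSpace (Y j)]
  [∀ j, MeasurableSpace (Y j)] [∀ j, BorelSpace (Y j)] {G : ℕ → Type} [∀ i, CommGroup (G i)]
  [∀ i, Fintype (G i)]

/-- parameters: a subgroup and a base point -/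
abbrev Par (ι : Type) (G : ℕ → Type) [∀ i, CommGroup (G i)] (Q : ∀ i, Subgroup (G i) → Prop) :
    Type :=
  Σ i : ℕ, {p : Subgroup (G i) × (ι → G i) // Q i p.1}

/-- the filter -/
def parFilter (ι : Type) (G : ℕ → Type) [∀ i, CommGroup (G i)]
    (Q : ∀ i, Subgroup (G i) → Prop) : Filter (Par ι G Q) :=
  Filter.comap (fun p : Par ι G Q => p.1) atTop

omit [∀ i, Fintype (G i)] in
lemma eventually_par {Q : ∀ i, Subgroup (G i) → Prop} {p : Par ι G Q → Prop} :
    (∀ᶠ q in parFilter ι G Q, p q) ↔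
      ∀ᶠ i in atTop, ∀ (B : Subgroup (G i)) (y : ι → G i) (h : Q i B), p ⟨i, (B, y), h⟩ := by
  unfold parFilter
  rw [eventually_comap]
  constructor
  · intro h
    filter_upwards [h] with i hi B y hB
    exact hi ⟨i, (B, y), hB⟩ rfl
  · intro h
    filter_upwards [h] with i hi
    rintro ⟨i', ⟨B, y⟩, hB⟩ rfl
    exact hi B y hB

open scoped Classical in
/-- the orbits -/
noncomputable def orbs (X : ∀ i j, G i → Y j) {r : ℕ} (e : ι → Fin r → ℤ)
    (Q : ∀ i, Subgroup (G i) → Prop) (q : Par ι G Q) : Orb Y :=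
  finOrb (A := ↥q.2.1.1 × (Fin r → G q.1))
    (fun j ω => X q.1 j ((ω.1 : G q.1) * (q.2.1.2 j * mon ω.2 (e j))))

omit [∀ j, TopologicalSpace (Y j)] [∀ j, MeasurableSpace (Y j)] [∀ j, BorelSpace (Y j)]
  [∀ i, Fintype (G i)] in
lemma X_pow {a : ∀ j, Y j → Y j} {c : ∀ i, G i} {X : ∀ i j, G i → Y j}
    (hX : ∀ i j g, X i j (c i * g) = a j (X i j g)) (i : ℕ) (j : ι) (n : ℕ) (g : G i) :
    X i j (c i ^ n * g) = (a j)^[n] (X i j g) := by
  induction n generalizing g with
  | zero => simp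
  | succ n ih => rw [pow_succ', mul_assoc, hX, ih, Function.iterate_succ_apply']

open scoped Classical in
omit [∀ j, TopologicalSpace (Y j)] [∀ j, BorelSpace (Y j)] in
/-- the symmetries -/
theorem orbs_sym {a : ∀ j, Y j → Y j} {c : ∀ i, G i} {X : ∀ i j, G i → Y j}
    (hX : ∀ i j g, X i j (c i * g) = a j (X i j g)) {r : ℕ} (e : ι → Fin r → ℤ)
    (Q : ∀ i, Subgroup (G i) → Prop) {κ : ℕ}
    (hκ : ∀ i B, Q i B → c i ^ κ ∈ B) (w : ℤ) (v : Fin r → ℤ) (J : Finset ι) (n : ι → ℕ)
    (hn : ∀ j ∈ J, (n j : ℤ) = κ * (w + ∑ s, v s * e j s)) (q : Par ι G Q) :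
    ∃ γ : ↥q.2.1.1 × (Fin r → G q.1), Sym (orbs X e Q q) J (fun j => (a j)^[n j])
      (Equiv.mulLeft γ : ↥q.2.1.1 × (Fin r → G q.1) → _) ∧
      (γ.2 = fun s => c q.1 ^ (κ * v s)) := by
  obtain ⟨i, ⟨B, y⟩, hB⟩ := q
  have hc : c i ^ (κ * w) ∈ B := by
    rw [zpow_mul, zpow_natCast]
    exact B.zpow_mem (hκ i B hB) w
  refine ⟨(⟨c i ^ (κ * w), hc⟩, fun s => c i ^ (κ * v s)), ⟨?_, fun j hj ω => ?_⟩, rfl⟩
  · exact preserves_unif (A := ↥B × (Fin r → G i))
      (Equiv.mulLeft (⟨c i ^ (κ * w), hc⟩, fun s => c i ^ (κ * v s)))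
  · obtain ⟨b, α⟩ := ω
    show X i j (((⟨c i ^ (κ * w), hc⟩ * b : ↥B) : G i) *
      (y j * mon ((fun s => c i ^ (κ * v s)) * α) (e j))) = (a j)^[n j] (X i j (b * (y j * mon α (e j))))
    rw [← X_pow hX]
    congr 1
    have e1 : c i ^ n j = c i ^ (κ * w) * c i ^ (∑ s, (κ * v s) * e j s) := by
      rw [← zpow_natCast, hn j hj, ← zpow_add, mul_add, Finset.mul_sum]
      congr 2
      exact Finset.sum_congr rfl fun s _ => by ring
    rw [e1, mon_mul, mon_pow, Subgroup.coe_mul]
    simp only [mul_comm, mul_left_comm, mul_assoc]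

variable [Fintype ι]

open scoped Classical in
/-- **Joint equidistribution for points with multiplicative relations.** -/
theorem orbs_joint {a : ∀ j, Y j → Y j} {c : ∀ i, G i} {X : ∀ i j, G i → Y j}
    (ha : ∀ j, Continuous (a j)) {μ : ∀ j, Measure (Y j)} [∀ j, IsProbabilityMeasure (μ j)]
    (hpres : ∀ j, MeasurePreserving (a j) (μ j) (μ j)) (hmix : ∀ j, WeakMix (μ j) (a j))
    (hX : ∀ i j g, X i j (c i * g) = a j (X i j g)) {r : ℕ} {e : ι → Fin r → ℤ}
    (he : Function.Injective e)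
    (Q : ∀ i, Subgroup (G i) → Prop) {κ : ℕ} (hκ0 : 0 < κ)
    (hκ : ∀ i B, Q i B → c i ^ κ ∈ B)
    (h1 : ∀ j, Joint (parFilter ι G Q) μ (orbs X e Q) {j}) :
    Joint (parFilter ι G Q) μ (orbs X e Q) univ := by
  obtain ⟨v, hv⟩ := exists_generic e he
  let u : ι → ℤ := fun j => ∑ s, v s * e j s
  have hu : Function.Injective u := hv
  let n : ι → ι → ℕ := fun k j => (κ * (u j - u k)).toNat
  let bmap : ι → ∀ j, Y j → Y j := fun k j => (a j)^[n k j]
  refine joint_of_subsets h1 (Set.finite_range bmap) ?_ univ fun J' _ hcard => ?_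
  · rintro _ ⟨k, rfl⟩ j
    exact (ha j).iterate _
  · have hne : J'.Nonempty := Finset.card_pos.1 (by omega)
    obtain ⟨k, hk, hmin⟩ := Finset.exists_min_image J' u hne
    obtain ⟨j, hj, hjk⟩ := Finset.exists_mem_ne hcard k
    have hpos : 0 < u j - u k := by
      have h2 : u j ≠ u k := fun h => hjk (hu h)
      have h3 := hmin j hj
      omega
    have hnk : n k k = 0 := by simp [n]
    have hnj : 0 < n k j := by
      have : 0 < (κ : ℤ) * (u j - u k) := by positivity
      simp only [n]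
      omega
    refine Eventually.of_forall fun q => ⟨j, hj, k, hk, hjk, bmap k, ⟨k, rfl⟩, ?_, ?_, ?_, ?_⟩
    · obtain ⟨γ, hγ, -⟩ := orbs_sym hX e Q hκ (-(u k)) v J' (n k) (fun m hm => by
        have h3 := hmin m hm
        have h4 : 0 ≤ (κ : ℤ) * (u m - u k) := by
          refine mul_nonneg (by positivity) ?_
          omega
        simp only [n]
        rw [Int.toNat_of_nonneg h4]
        ring) q
      exact ⟨_, hγ⟩
    · show (a k)^[n k k] = id
      rw [hnk, Function.iterate_zero]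
    · exact (hpres j).iterate _
    · exact weakMix_iterate (hmix j) hnj

/-- the mean over the orbit of the subgroup -/
noncomputable def bmean {S : ι → Type} {A : Type} [CommGroup A] [Fintype A] (Φ : (∀ j, S j) → ℝ)
    (x : ∀ j, A → S j) (B : Subgroup A) (g : ι → A) : ℝ :=
  (∑ᶠ b : B, Φ fun j => x j (b * g j)) / Nat.card B

open scoped Classical in
/-- **The second moment.** -/
theorem second_moment {a : ∀ j, Y j → Y j} {c : ∀ i, G i} {X : ∀ i j, G i → Y j}
    (ha : ∀ j, Continuous (a j)) {μ : ∀ j, Measure (Y j)} [∀ j, IsProbabilityMeasure (μ j)]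
    (hpres : ∀ j, MeasurePreserving (a j) (μ j) (μ j)) (hmix : ∀ j, WeakMix (μ j) (a j))
    (hX : ∀ i j g, X i j (c i * g) = a j (X i j g)) {r : ℕ} {e : ι → Fin r → ℤ}
    (he : Function.Injective e)
    (Q : ∀ i, Subgroup (G i) → Prop) {κ : ℕ} (hκ0 : 0 < κ)
    (hκ : ∀ i B, Q i B → c i ^ κ ∈ B)
    (h1 : ∀ j, Joint (parFilter ι G Q) μ (orbs X e Q) {j})
    {S : ι → Type} [∀ j, TopologicalSpace (S j)] [∀ j, T2Space (S j)]
    [∀ j, LocallyCompactSpace (S j)] [∀ j, SecondCountableTopology (S j)]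
    [∀ j, MeasurableSpace (S j)] [∀ j, BorelSpace (S j)] (proj : ∀ j, Y j → S j)
    (hproj : ∀ j, Continuous (proj j)) (Φ : (∀ j, S j) → ℝ) (hc : Continuous Φ)
    (hs : HasCompactSupport Φ) {ε : ℝ} (hε : 0 < ε) :
    ∀ᶠ i in atTop, ∀ (B : Subgroup (G i)) (y : ι → G i), Q i B →
      (∑ α : Fin r → G i, (bmean Φ (fun j g => proj j (X i j g)) B (fun j => y j * mon α (e j)) -
        ∫ z, Φ z ∂(Measure.pi fun j => (μ j).map (proj j))) ^ 2) / Fintype.card (Fin r → G i) ≤ ε := by
  have hJ := orbs_joint ha hpres hmix hX he Q hκ0 hκ h1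
  obtain ⟨C, hC⟩ := hc.bounded_above_of_compact_support hs
  set m : ℝ := ∫ z, Φ z ∂(Measure.pi fun j => (μ j).map (proj j)) with hm
  have hprob : ∀ j, IsProbabilityMeasure ((μ j).map (proj j)) := fun j =>
    Measure.isProbabilityMeasure_map (hproj j).measurable.aemeasurable
  have hC0 : 0 ≤ C := by
    have h2 : ∀ j, Nonempty (S j) := fun j => by
      by_contra h
      rw [not_nonempty_iff] at h
      have h1 : ((μ j).map (proj j)) Set.univ = 1 := measure_univ
      rw [Set.univ_eq_empty_iff.2 h, measure_empty] at h1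
      exact zero_ne_one h1
    exact (norm_nonneg _).trans (hC fun j => (h2 j).some)
  have hmC : |m| ≤ C := by
    have := norm_integral_le_of_norm_le_const
      (μ := Measure.pi fun j => (μ j).map (proj j)) (f := fun z => Φ z)
      (C := C) (Eventually.of_forall fun z => hC z)
    simpa using this
  have h2 := conditional_weak (F := parFilter ι G Q) (s := orbs X e Q) (μ := μ)
    (b := fun j => (a j)^[κ]) (fun j => (ha j).iterate κ) (fun j => (hpres j).iterate κ)
    (fun j => weakMix_iterate (hmix j) hκ0) hJ proj hproj Φ hc hs (K := C + C) (by positivity) hε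
  rw [eventually_par] at h2
  filter_upwards [h2] with i hi B y hB
  obtain ⟨γ, hγ, hγ2⟩ := orbs_sym hX e Q hκ 1 0 univ (fun _ => κ) (fun j _ => by simp)
    ⟨i, (B, y), hB⟩
  have hγ' : γ.2 = 1 := by
    rw [hγ2]
    funext s
    simp
  set D : (Fin r → G i) → ℝ := fun α =>
    bmean Φ (fun j g => proj j (X i j g)) B (fun j => y j * mon α (e j)) - m with hD
  have hcardB : (0 : ℝ) < Nat.card B := by
    exact_mod_cast Nat.card_pos
  have hbm : ∀ α, bmean Φ (fun j g => proj j (X i j g)) B (fun j => y j * mon α (e j)) =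
      (∑ b : B, Φ fun j => proj j (X i j (b * (y j * mon α (e j))))) / Nat.card B := by
    intro α
    unfold bmean
    rw [finsum_eq_sum_of_fintype]
  have hDb : ∀ α, |D α| ≤ C + C := by
    intro α
    refine (abs_sub _ _).trans (add_le_add ?_ hmC)
    rw [hbm, abs_div, abs_of_pos hcardB, div_le_iff₀ hcardB]
    refine (Finset.abs_sum_le_sum_abs _ _).trans ?_
    calc ∑ b : B, |Φ fun j => proj j (X i j (b * (y j * mon α (e j))))| ≤ ∑ _b : B, C :=
          Finset.sum_le_sum fun b _ => hC _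
      _ = C * Nat.card B := by
          rw [Finset.sum_const, Finset.card_univ, nsmul_eq_mul, Nat.card_eq_fintype_card, mul_comm]
  have hinv : ∀ ω : ↥B × (Fin r → G i), D ((Equiv.mulLeft γ : ↥B × (Fin r → G i) → _) ω).2 =
      D ω.2 := fun ω => by
    rw [Equiv.coe_mulLeft, Prod.snd_mul, hγ', one_mul]
  have h3 := hi B y hB (Equiv.mulLeft γ) hγ (fun ω => D ω.2) measurable_from_top
    (fun ω => hDb ω.2) hinv
  have hA : (Fintype.card (↥B × (Fin r → G i)) : ℝ) = Nat.card B * Fintype.card (Fin r → G i) := by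
    rw [Fintype.card_prod, Nat.card_eq_fintype_card]
    push_cast
    ring
  have hGr : (0 : ℝ) < Fintype.card (Fin r → G i) := by
    exact_mod_cast Fintype.card_pos
  have e1 : ∫ ω, D ω.2 * Φ (fun j => proj j ((orbs X e Q ⟨i, (B, y), hB⟩).X j ω))
      ∂(orbs X e Q ⟨i, (B, y), hB⟩).P =
      (∑ α, D α * (D α + m)) / Fintype.card (Fin r → G i) := by
    have e2 := integral_unif_real (A := ↥B × (Fin r → G i))
      (fun ω => D ω.2 * Φ (fun j => proj j (X i j ((ω.1 : G i) * (y j * mon ω.2 (e j))))))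
    refine Eq.trans e2 ?_
    rw [Fintype.sum_prod_type_right, hA]
    have e3 : ∀ α, ∑ b : B, D α * Φ (fun j => proj j (X i j ((b : G i) * (y j * mon α (e j))))) =
        D α * ((D α + m) * Nat.card B) := by
      intro α
      rw [← Finset.mul_sum]
      congr 1
      rw [hD]
      simp only
      rw [sub_add_cancel, hbm, div_mul_cancel₀ _ hcardB.ne']
    rw [Finset.sum_congr rfl fun α _ => e3 α, div_eq_div_iff (mul_pos hcardB hGr).ne' hGr.ne',
      Finset.sum_mul, Finset.sum_mul]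
    refine Finset.sum_congr rfl fun α _ => ?_
    ring
  have e4 : ∫ ω, D ω.2 ∂(orbs X e Q ⟨i, (B, y), hB⟩).P =
      (∑ α, D α) / Fintype.card (Fin r → G i) := by
    have e2 := integral_unif_real (A := ↥B × (Fin r → G i)) (fun ω => D ω.2)
    refine Eq.trans e2 ?_
    rw [Fintype.sum_prod_type_right, hA]
    have e3 : ∀ α : Fin r → G i, ∑ _b : B, D α = D α * Nat.card B := by
      intro α
      rw [Finset.sum_const, Finset.card_univ, nsmul_eq_mul, Nat.card_eq_fintype_card, mul_comm]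
    rw [Finset.sum_congr rfl fun α _ => e3 α, ← Finset.sum_mul,
      div_eq_div_iff (mul_pos hcardB hGr).ne' hGr.ne']
    ring
  have e5 : (∑ α, D α * (D α + m)) / Fintype.card (Fin r → G i) -
      (∑ α, D α) / Fintype.card (Fin r → G i) * m =
      (∑ α, D α ^ 2) / Fintype.card (Fin r → G i) := by
    rw [div_mul_eq_mul_div, ← sub_div, Finset.sum_mul, ← Finset.sum_sub_distrib]
    congr 1
    exact Finset.sum_congr rfl fun α _ => by ring
  have h4 : |(∑ α, D α ^ 2) / Fintype.card (Fin r → G i)| ≤ ε := by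
    rw [← e5, ← e1, ← e4]
    exact h3
  exact (le_abs_self _).trans h4

/-- the equidistribution of the whole packets -/
def Base (μ : ∀ j, Measure (Y j)) (X : ∀ i j, G i → Y j) : Prop :=
  ∀ j (f : Y j →ᵇ ℂ), Tendsto (fun i => (∑ g, f (X i j g)) / Fintype.card (G i)) atTop
    (𝓝 (∫ y, f y ∂(μ j)))

omit [Fintype ι] [∀ j, BorelSpace (Y j)] in
theorem Base.joint {μ : ∀ j, Measure (Y j)} {X : ∀ i j, G i → Y j} (h : Base μ X) (j : ι) :
    Joint atTop μ (fun i => finOrb (X i)) {j} := by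
  intro f
  have h1 := h j (f j)
  have e : ∀ i, ∫ ω, ∏ l ∈ ({j} : Finset ι), f l ((finOrb (X i)).X l ω) ∂(finOrb (X i)).P =
      (∑ g, f j (X i j g)) / Fintype.card (G i) := by
    intro i
    simp only [Finset.prod_singleton]
    exact integral_unif (A := G i) (fun g => f j (X i j g))
  rw [Finset.prod_singleton]
  exact (tendsto_congr e).2 h1

open scoped Classical in
omit [Fintype ι] [∀ j, BorelSpace (Y j)] in
/-- primitive exponents, any subgroups -/
theorem joint_primitive {μ : ∀ j, Measure (Y j)} {X : ∀ i j, G i → Y j} (h : Base μ X) {r : ℕ}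
    {e : ι → Fin r → ℤ} (he : ∀ j, ∃ u : Fin r → ℤ, ∑ s, u s * e j s = 1)
    (Q : ∀ i, Subgroup (G i) → Prop) (j : ι) :
    Joint (parFilter ι G Q) μ (orbs X e Q) {j} := by
  intro f
  have h1 := h j (f j)
  have e1 : ∀ q : Par ι G Q, ∫ ω, ∏ l ∈ ({j} : Finset ι), f l ((orbs X e Q q).X l ω)
      ∂(orbs X e Q q).P = (∑ g, f j (X q.1 j g)) / Fintype.card (G q.1) := by
    rintro ⟨i, ⟨B, y⟩, hB⟩
    simp only [Finset.prod_singleton]
    have e2 := integral_unif (A := ↥B × (Fin r → G i))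
      (fun ω => f j (X i j ((ω.1 : G i) * (y j * mon ω.2 (e j)))))
    refine Eq.trans e2 ?_
    rw [Fintype.sum_prod_type, Fintype.card_prod]
    have hB0 : (Fintype.card B : ℂ) ≠ 0 := by exact_mod_cast Fintype.card_ne_zero
    have hG0 : (Fintype.card (G i) : ℂ) ≠ 0 := by exact_mod_cast Fintype.card_ne_zero
    have hGr0 : (Fintype.card (Fin r → G i) : ℂ) ≠ 0 := by exact_mod_cast Fintype.card_ne_zero
    have e3 : ∀ b : B, ∑ α : Fin r → G i, f j (X i j ((b : G i) * (y j * mon α (e j)))) =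
        (∑ g, f j (X i j g)) / Fintype.card (G i) * Fintype.card (Fin r → G i) := by
      intro b
      have h3 := sum_mon (he j) (fun g => f j (X i j ((b : G i) * (y j * g))))
      rw [div_eq_iff hGr0] at h3
      rw [h3]
      congr 2
      have := Equiv.sum_comp (Equiv.mulLeft ((b : G i) * y j)) (fun g => f j (X i j g))
      rw [← this]
      refine Finset.sum_congr rfl fun g _ => ?_
      rw [Equiv.coe_mulLeft]
      simp only [mul_assoc]
    rw [Finset.sum_congr rfl fun b _ => e3 b, Finset.sum_const, Finset.card_univ, nsmul_eq_mul]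
    push_cast
    field_simp
  rw [Finset.prod_singleton]
  exact (tendsto_congr e1).2 (h1.comp tendsto_comap)

omit [Fintype ι] in
/-- the orbits of the subgroups of bounded index -/
theorem coset_mean {a : ∀ j, Y j → Y j} {c : ∀ i, G i} {X : ∀ i j, G i → Y j}
    (ha : ∀ j, Continuous (a j)) {μ : ∀ j, Measure (Y j)} [∀ j, IsProbabilityMeasure (μ j)]
    (hpres : ∀ j, MeasurePreserving (a j) (μ j) (μ j)) (hmix : ∀ j, WeakMix (μ j) (a j))
    (hX : ∀ i j g, X i j (c i * g) = a j (X i j g)) (h : Base μ X) (M : ℕ) (j : ι)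
    (f : Y j →ᵇ ℂ) (hf : ∫ y, f y ∂(μ j) = 0) {ε : ℝ} (hε : 0 < ε) :
    ∀ᶠ i in atTop, ∀ (B : Subgroup (G i)) [Fintype B] (g0 : G i), B.index ≤ M →
      ‖(∑ b : B, f (X i j (b * g0))) / Fintype.card B‖ ≤ ε := by
  classical
  have h1 := orthogonal (F := atTop) (s := fun i => finOrb (X i)) (J := {j}) (h.joint j)
    (b := fun j => (a j)^[M.factorial]) (fun m _ => (ha m).iterate _) (j0 := j)
    (Finset.mem_singleton_self j) ((hpres j).iterate _)
    (weakMix_iterate (hmix j) (Nat.factorial_pos M)) (f := Function.update (fun _ => 0) j f)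
    (by rw [Function.update_self]; exact hf) (K := M) (ε := ε) (Nat.cast_nonneg M) hε
  filter_upwards [h1] with i hi B _ g0 hB
  have hidx : B.index ≠ 0 := Subgroup.index_ne_zero_of_finite
  have hcB : c i ^ M.factorial ∈ B := by
    obtain ⟨k, hk⟩ := Nat.dvd_factorial (Nat.pos_of_ne_zero hidx) hB
    rw [hk, pow_mul]
    exact B.pow_mem (B.pow_index_mem (c i)) k
  let ψ : G i → ℂ := fun g => if g * g0⁻¹ ∈ B then (B.index : ℂ) else 0
  have hsym : Sym (finOrb (X i)) {j} (fun j => (a j)^[M.factorial])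
      (Equiv.mulLeft (c i ^ M.factorial) : G i → G i) := by
    refine ⟨preserves_unif (A := G i) (Equiv.mulLeft _), fun l _ ω => ?_⟩
    exact X_pow hX i l _ ω
  have hψinv : ∀ g : G i, ψ ((Equiv.mulLeft (c i ^ M.factorial) : G i → G i) g) = ψ g := by
    intro g
    simp only [ψ, Equiv.coe_mulLeft]
    have : c i ^ M.factorial * g * g0⁻¹ ∈ B ↔ g * g0⁻¹ ∈ B := by
      rw [mul_assoc]
      exact B.mul_mem_cancel_left hcB
    simp only [this]
  have h2 := hi _ hsym ψ measurable_from_top (fun g => by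
    simp only [ψ]
    split_ifs
    · rw [Complex.norm_natCast]
      exact_mod_cast hB
    · simp) hψinv
  have e1 : ∫ ω, ψ ω * ∏ l ∈ ({j} : Finset ι), (Function.update (fun _ => 0) j f : ∀ l, Y l →ᵇ ℂ) l
      ((finOrb (X i)).X l ω) ∂(finOrb (X i)).P = (∑ b : B, f (X i j (b * g0))) / Fintype.card B := by
    simp only [Finset.prod_singleton, Function.update_self]
    refine Eq.trans (integral_unif (A := G i) (fun g => ψ g * f (X i j g))) ?_
    have e2 : ∑ g, ψ g * f (X i j g) = (B.index : ℂ) * ∑ b : B, f (X i j (b * g0)) := by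
      rw [← Equiv.sum_comp (Equiv.mulRight g0) (fun g => ψ g * f (X i j g)), Finset.mul_sum]
      simp only [Equiv.coe_mulRight, ψ, mul_inv_cancel_right, ite_mul, zero_mul]
      rw [← Finset.sum_filter]
      exact Finset.sum_subtype (Finset.univ.filter (· ∈ B)) (fun x => by simp)
        (fun g => (B.index : ℂ) * f (X i j (g * g0)))
    rw [e2]
    have hcard : (Fintype.card (G i) : ℂ) = B.index * Fintype.card B := by
      have := B.index_mul_card
      rw [Nat.card_eq_fintype_card, Nat.card_eq_fintype_card] at this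
      exact_mod_cast this.symm
    have hB0 : (Fintype.card B : ℂ) ≠ 0 := by exact_mod_cast Fintype.card_ne_zero
    have hI0 : (B.index : ℂ) ≠ 0 := by exact_mod_cast hidx
    rw [hcard, mul_div_mul_left _ _ hI0]
  rw [e1] at h2
  exact h2

open scoped Classical in
omit [Fintype ι] in
/-- subgroups of bounded index, any exponents -/
theorem joint_bounded {a : ∀ j, Y j → Y j} {c : ∀ i, G i} {X : ∀ i j, G i → Y j}
    (ha : ∀ j, Continuous (a j)) {μ : ∀ j, Measure (Y j)} [∀ j, IsProbabilityMeasure (μ j)]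
    (hpres : ∀ j, MeasurePreserving (a j) (μ j) (μ j)) (hmix : ∀ j, WeakMix (μ j) (a j))
    (hX : ∀ i j g, X i j (c i * g) = a j (X i j g)) (h : Base μ X) (M : ℕ) {r : ℕ}
    (e : ι → Fin r → ℤ) (j : ι) :
    Joint (parFilter ι G fun _ B => B.index ≤ M) μ (orbs X e fun _ B => B.index ≤ M) {j} := by
  intro f
  simp only [Finset.prod_singleton]
  rw [Metric.tendsto_nhds]
  intro ε hε
  set m : ℂ := ∫ y, f j y ∂(μ j) with hm
  have h1 := coset_mean ha hpres hmix hX h M j (f j - BoundedContinuousFunction.const (Y j) m)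
    (integral_sub_mean (μ j) (f j)) (half_pos hε)
  rw [eventually_par]
  filter_upwards [h1] with i hi B y hB
  rw [dist_eq_norm]
  have e2 := integral_unif (A := ↥B × (Fin r → G i))
    (fun ω => f j (X i j ((ω.1 : G i) * (y j * mon ω.2 (e j)))))
  have e3 : ∫ ω, f j ((orbs X e (fun _ B => B.index ≤ M) ⟨i, (B, y), hB⟩).X j ω)
      ∂(orbs X e (fun _ B => B.index ≤ M) ⟨i, (B, y), hB⟩).P =
      (∑ ω : ↥B × (Fin r → G i), f j (X i j ((ω.1 : G i) * (y j * mon ω.2 (e j))))) /
        Fintype.card (↥B × (Fin r → G i)) := e2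
  rw [e3, Fintype.sum_prod_type_right, Fintype.card_prod]
  have hB0 : (Fintype.card B : ℂ) ≠ 0 := by exact_mod_cast Fintype.card_ne_zero
  have hGr0 : (Fintype.card (Fin r → G i) : ℂ) ≠ 0 := by exact_mod_cast Fintype.card_ne_zero
  have e4 : (∑ α : Fin r → G i, ∑ b : B, f j (X i j ((b : G i) * (y j * mon α (e j))))) /
      ((Fintype.card B * Fintype.card (Fin r → G i) : ℕ) : ℂ) - m =
      (∑ α : Fin r → G i, (∑ b : B, (f j - BoundedContinuousFunction.const (Y j) m)
        (X i j ((b : G i) * (y j * mon α (e j))))) / Fintype.card B) /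
        Fintype.card (Fin r → G i) := by
    have e5 : ∀ α : Fin r → G i, (∑ b : B, (f j - BoundedContinuousFunction.const (Y j) m)
        (X i j ((b : G i) * (y j * mon α (e j))))) / (Fintype.card B : ℂ) =
        (∑ b : B, f j (X i j ((b : G i) * (y j * mon α (e j))))) / Fintype.card B - m := by
      intro α
      have e6 : ∀ z, (f j - BoundedContinuousFunction.const (Y j) m) z = f j z - m := fun z => rfl
      simp only [e6, Finset.sum_sub_distrib, Finset.sum_const, Finset.card_univ, nsmul_eq_mul]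
      field_simp
    rw [Finset.sum_congr rfl fun α _ => e5 α, Finset.sum_sub_distrib, Finset.sum_const,
      Finset.card_univ, nsmul_eq_mul, ← Finset.sum_div]
    push_cast
    field_simp
  rw [e4, norm_div, Complex.norm_natCast]
  have hGr : (0 : ℝ) < Fintype.card (Fin r → G i) := by exact_mod_cast Fintype.card_pos
  rw [div_lt_iff₀ hGr]
  refine lt_of_le_of_lt (norm_sum_le _ _) ?_
  calc ∑ α : Fin r → G i, ‖(∑ b : B, (f j - BoundedContinuousFunction.const (Y j) m)
        (X i j ((b : G i) * (y j * mon α (e j))))) / (Fintype.card B : ℂ)‖ ≤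
        ∑ _α : Fin r → G i, ε / 2 := Finset.sum_le_sum fun α _ => hi B _ hB
    _ = ε / 2 * Fintype.card (Fin r → G i) := by
        rw [Finset.sum_const, Finset.card_univ, nsmul_eq_mul, mul_comm]
    _ < ε * Fintype.card (Fin r → G i) := mul_lt_mul_of_pos_right (half_lt_self hε) hGr

end Pool.Agent.Helper5.EQ
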