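import Pool.Agent.Helper5.EQ.Blocks

/-! # Equidistribution of some of the coordinates -/

set_option autoImplicit false

open Finset MeasureTheory Filter Topology
open scoped ComplexConjugate BoundedContinuousFunction

namespace Pool.Agent.Helper5.EQ

open Pool.Agent.Q12.CM Pool.Agent.N210.EQ

variable {I : Type} {F : Filter I} {ι : Type} {Y : ι → Type} [∀ j, TopologicalSpace (Y j)]
  [∀ j, MeasurableSpace (Y j)] [∀ j, BorelSpace (Y j)]

/-- the coordinates in `J` -/
def Orb.restrict (o : Orb Y) (J : Set ι) : Orb (fun j : J => Y j) where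
  Ω := o.Ω
  P := o.P
  X := fun j ω => o.X j ω
  measurable := fun j => o.measurable j

theorem equi_iff_joint [Fintype ι] [∀ j, SecondCountableTopology (Y j)] [∀ j, T2Space (Y j)]
    [∀ j, LocallyCompactSpace (Y j)] {μ : ∀ j, Measure (Y j)} [∀ j, IsProbabilityMeasure (μ j)]
    {s : I → Orb Y} :
    (∀ f : (∀ j, Y j) → ℝ, Continuous f → HasCompactSupport f →
      Tendsto (fun i => ∫ ω, f (fun j => (s i).X j ω) ∂(s i).P) F
        (𝓝 (∫ y, f y ∂(Measure.pi μ)))) ↔ Joint F μ s univ := by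
  refine ⟨fun h f => ?_, fun h f hf hs => weak h f hf hs⟩
  let f' : (∀ j, Y j) →ᵇ ℂ := BoundedContinuousFunction.ofNormedAddCommGroup
    (fun y => ∏ j, f j (y j))
    (continuous_finsetProd _ fun j _ => (f j).continuous.comp (continuous_apply j))
    (∏ j, ‖f j‖) (fun y => prod_norm_le univ f y)
  have h2 := weak_of_vague (F := F) (Measure.pi μ) (fun i => (s i).P)
    (fun i ω j => (s i).X j ω) (fun i => (s i).measurable_pi) h f'
  have e2 : ∫ y, f' y ∂(Measure.pi μ) = ∏ j, ∫ y, f j y ∂(μ j) :=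
    integral_fintype_prod_eq_prod (fun j y => f j y)
  rw [e2] at h2
  exact h2

omit [∀ j, BorelSpace (Y j)] in
theorem joint_restrict [Fintype ι] {J : Set ι} [DecidablePred (· ∈ J)] [Fintype J]
    {μ : ∀ j, Measure (Y j)} [∀ j, IsProbabilityMeasure (μ j)] {s : I → Orb Y} :
    Joint F (fun j : J => μ j) (fun i => (s i).restrict J) univ ↔
      Joint F μ s (univ.filter (· ∈ J)) := by
  have hprod : ∀ u : ι → ℂ, ∏ j : J, u j = ∏ j ∈ univ.filter (· ∈ J), u j := fun u =>
    (Finset.prod_subtype (univ.filter (· ∈ J)) (fun j => by simp) u).symm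
  constructor
  · intro h f
    have h1 := h fun j => f j
    rw [hprod fun j => ∫ y, f j y ∂(μ j)] at h1
    have e1 : ∀ i, ∫ ω, ∏ j : J, f j (((s i).restrict J).X j ω) ∂((s i).restrict J).P =
        ∫ ω, ∏ j ∈ univ.filter (· ∈ J), f j ((s i).X j ω) ∂(s i).P := by
      intro i
      refine integral_congr_ae (Eventually.of_forall fun ω => ?_)
      exact hprod fun j => f j ((s i).X j ω)
    simp only [e1] at h1
    exact h1
  · intro h f
    have h1 := h fun j => if hj : j ∈ J then f ⟨j, hj⟩ else 1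
    rw [← hprod fun j => ∫ y, (if hj : j ∈ J then f ⟨j, hj⟩ else 1 : Y j →ᵇ ℂ) y ∂(μ j)] at h1
    have e1 : ∀ i, ∫ ω, ∏ j : J, f j (((s i).restrict J).X j ω) ∂((s i).restrict J).P =
        ∫ ω, ∏ j ∈ univ.filter (· ∈ J),
          (if hj : j ∈ J then f ⟨j, hj⟩ else 1 : Y j →ᵇ ℂ) ((s i).X j ω) ∂(s i).P := by
      intro i
      refine integral_congr_ae (Eventually.of_forall fun ω => ?_)
      simp only
      rw [← hprod fun j => (if hj : j ∈ J then f ⟨j, hj⟩ else 1 : Y j →ᵇ ℂ) ((s i).X j ω)]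
      refine Finset.prod_congr rfl fun j _ => ?_
      rw [dif_pos j.2]
      rfl
    have e2 : ∏ j : J, ∫ y, (if hj : (j : ι) ∈ J then f ⟨j, hj⟩ else 1 : Y j →ᵇ ℂ) y ∂(μ j) =
        ∏ j : J, ∫ y, f j y ∂(μ j) :=
      Finset.prod_congr rfl fun j _ => by rw [dif_pos j.2]
    simp only [e1]
    rw [e2] at h1
    exact h1

/-- for a finite partition of the index set the convergence can be checked on the parts -/
theorem tendsto_of_parts {Z κ : Type} [TopologicalSpace Z] [Finite κ] (c : I → κ) {u : I → Z} {z : Z}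
    (h : ∀ k, Tendsto u (F ⊓ 𝓟 {i | c i = k}) (𝓝 z)) : Tendsto u F (𝓝 z) := by
  intro U hU
  have h1 : ∀ k, ∀ᶠ i in F, c i = k → u i ∈ U := fun k =>
    eventually_inf_principal.1 (h k hU)
  have h2 : ∀ᶠ i in F, ∀ k, c i = k → u i ∈ U := eventually_all.2 h1
  exact h2.mono fun i hi => hi (c i) rfl

end Pool.Agent.Helper5.EQ
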