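import Pool.Agent.Helper5.EQ.Weak

/-! # Vague convergence to a probability measure is weak convergence -/

set_option autoImplicit false

open Finset MeasureTheory Filter Topology
open scoped ComplexConjugate BoundedContinuousFunction

namespace Pool.Agent.Helper5.EQ

open Pool.Agent.Q12.CM Pool.Agent.N210.EQ

variable {I : Type} {F : Filter I}

section

variable {Z : Type} [TopologicalSpace Z] [MeasurableSpace Z] [BorelSpace Z] [T2Space Z]
  [LocallyCompactSpace Z] [SecondCountableTopology Z]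

lemma exists_cutoff (μ : Measure Z) [IsProbabilityMeasure μ] {ε : ℝ} (hε : 0 < ε) :
    ∃ χ : Z → ℝ, Continuous χ ∧ HasCompactSupport χ ∧ (∀ z, 0 ≤ χ z ∧ χ z ≤ 1) ∧
      1 - ε < ∫ z, χ z ∂μ := by
  have h1 : Tendsto (fun n => μ (compactCovering Z n)) atTop (𝓝 (μ (⋃ n, compactCovering Z n))) :=
    tendsto_measure_iUnion_atTop (fun a b hab => compactCovering_subset Z hab)
  rw [iUnion_compactCovering, measure_univ] at h1
  have h2 : Tendsto (fun n => μ.real (compactCovering Z n)) atTop (𝓝 1) := by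
    have := (ENNReal.tendsto_toReal ENNReal.one_ne_top).comp h1
    simpa [Function.comp_def, Measure.real] using this
  obtain ⟨n, hn⟩ := (h2.eventually_const_lt (show 1 - ε < 1 by linarith)).exists
  obtain ⟨χ, hχ1, -, hχc, hχI⟩ := exists_continuous_one_zero_of_isCompact
    (isCompact_compactCovering Z n) (isClosed_empty) (Set.disjoint_empty _)
  refine ⟨χ, χ.continuous, hχc, fun z => ⟨(hχI z).1, (hχI z).2⟩, hn.trans_le ?_⟩
  have hint : Integrable (fun z => χ z) μ := χ.continuous.integrable_of_hasCompactSupport hχc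
  have hK : MeasurableSet (compactCovering Z n) := (isCompact_compactCovering Z n).measurableSet
  calc μ.real (compactCovering Z n) = ∫ z, (compactCovering Z n).indicator (fun _ => (1 : ℝ)) z ∂μ := by
        rw [integral_indicator hK, setIntegral_const, smul_eq_mul, mul_one]
    _ ≤ ∫ z, χ z ∂μ := by
        refine integral_mono ((integrable_const _).indicator hK) hint fun z => ?_
        by_cases hz : z ∈ compactCovering Z n
        · rw [Set.indicator_of_mem hz, hχ1 hz]
          simp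
        · rw [Set.indicator_of_notMem hz]
          exact (hχI z).1

/-- **Vague convergence to a probability measure is weak convergence.** -/
theorem weak_of_vague (μ : Measure Z) [IsProbabilityMeasure μ] {Ω : I → Type}
    [∀ i, MeasurableSpace (Ω i)] (P : ∀ i, Measure (Ω i)) [∀ i, IsProbabilityMeasure (P i)]
    (X : ∀ i, Ω i → Z) (hX : ∀ i, Measurable (X i))
    (h : ∀ φ : Z → ℝ, Continuous φ → HasCompactSupport φ →
      Tendsto (fun i => ∫ ω, φ (X i ω) ∂(P i)) F (𝓝 (∫ z, φ z ∂μ))) (f : Z →ᵇ ℂ) :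
    Tendsto (fun i => ∫ ω, f (X i ω) ∂(P i)) F (𝓝 (∫ z, f z ∂μ)) := by
  rw [Metric.tendsto_nhds]
  intro ε hε
  set η : ℝ := ε / (4 * (‖f‖ + 1)) with hη
  have hη0 : 0 < η := by positivity
  obtain ⟨χ, hχc, hχs, hχ01, hχμ⟩ := exists_cutoff μ hη0
  have hres : HasCompactSupport fun z => (f z).re * χ z := hχs.mul_left
  have hims : HasCompactSupport fun z => (f z).im * χ z := hχs.mul_left
  have h1 := h (fun z => (f z).re * χ z) ((Complex.continuous_re.comp f.continuous).mul hχc) hres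
  have h2 := h (fun z => (f z).im * χ z) ((Complex.continuous_im.comp f.continuous).mul hχc) hims
  have h3 := h _ hχc hχs
  have h1' := Metric.tendsto_nhds.1 h1 (ε / 8) (by positivity)
  have h2' := Metric.tendsto_nhds.1 h2 (ε / 8) (by positivity)
  have h3' := h3.eventually_const_lt hχμ
  filter_upwards [h1', h2', h3'] with i hi1 hi2 hi3
  -- general facts on a probability space
  have key : ∀ (Ω' : Type) (m : MeasurableSpace Ω') (Q : Measure Ω') (_ : IsProbabilityMeasure Q)
      (T : Ω' → Z) (_ : Measurable T), 1 - η < ∫ ω, χ (T ω) ∂Q →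
      ‖∫ ω, f (T ω) ∂Q - ((∫ ω, (f (T ω)).re * χ (T ω) ∂Q : ℝ) +
        (∫ ω, (f (T ω)).im * χ (T ω) ∂Q : ℝ) * Complex.I)‖ ≤ ‖f‖ * η := by
    intro Ω' m Q hQ T hT hlt
    have mf : Measurable fun ω => f (T ω) := f.continuous.measurable.comp hT
    have mχ : Measurable fun ω => χ (T ω) := hχc.measurable.comp hT
    have i1 : Integrable (fun ω => f (T ω)) Q :=
      Integrable.of_bound mf.aestronglyMeasurable ‖f‖ (Eventually.of_forall fun ω => f.norm_coe_le_norm _)
    have i2 : Integrable (fun ω => f (T ω) * (χ (T ω) : ℂ)) Q := by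
      refine Integrable.of_bound (mf.mul (Complex.measurable_ofReal.comp mχ)).aestronglyMeasurable ‖f‖
        (Eventually.of_forall fun ω => ?_)
      rw [norm_mul, Complex.norm_real, Real.norm_of_nonneg (hχ01 _).1]
      exact (mul_le_of_le_one_right (norm_nonneg _) (hχ01 _).2).trans (f.norm_coe_le_norm _)
    have i3 : Integrable (fun ω => χ (T ω)) Q := by
      refine Integrable.of_bound mχ.aestronglyMeasurable 1 (Eventually.of_forall fun ω => ?_)
      rw [Real.norm_of_nonneg (hχ01 _).1]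
      exact (hχ01 _).2
    have e1 : ((∫ ω, (f (T ω)).re * χ (T ω) ∂Q : ℝ) : ℂ) +
        (∫ ω, (f (T ω)).im * χ (T ω) ∂Q : ℝ) * Complex.I = ∫ ω, f (T ω) * (χ (T ω) : ℂ) ∂Q := by
      have e2 : ∀ ω, (f (T ω)).re * χ (T ω) = (f (T ω) * (χ (T ω) : ℂ)).re := fun ω => by
        simp
      have e3 : ∀ ω, (f (T ω)).im * χ (T ω) = (f (T ω) * (χ (T ω) : ℂ)).im := fun ω => by
        simp
      simp only [e2, e3]
      have e4 : ∫ ω, (f (T ω) * (χ (T ω) : ℂ)).re ∂Q = (∫ ω, f (T ω) * (χ (T ω) : ℂ) ∂Q).re :=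
        integral_re i2
      have e5 : ∫ ω, (f (T ω) * (χ (T ω) : ℂ)).im ∂Q = (∫ ω, f (T ω) * (χ (T ω) : ℂ) ∂Q).im :=
        integral_im i2
      rw [e4, e5, Complex.re_add_im]
    rw [e1, ← integral_sub i1 i2]
    calc ‖∫ ω, (f (T ω) - f (T ω) * (χ (T ω) : ℂ)) ∂Q‖ ≤ ∫ ω, ‖f‖ * (1 - χ (T ω)) ∂Q := by
          refine (norm_integral_le_integral_norm _).trans ?_
          refine integral_mono (i1.sub i2).norm (((integrable_const _).sub i3).const_mul _) fun ω => ?_
          have e6 : f (T ω) - f (T ω) * (χ (T ω) : ℂ) = f (T ω) * ((1 - χ (T ω) : ℝ) : ℂ) := by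
            push_cast
            ring
          simp only
          rw [e6, norm_mul, Complex.norm_real, Real.norm_of_nonneg (sub_nonneg.2 (hχ01 _).2)]
          exact mul_le_mul_of_nonneg_right (f.norm_coe_le_norm _) (sub_nonneg.2 (hχ01 _).2)
      _ = ‖f‖ * (1 - ∫ ω, χ (T ω) ∂Q) := by
          rw [integral_const_mul, integral_sub (integrable_const _) i3, integral_const,
            probReal_univ, one_smul]
      _ ≤ ‖f‖ * η := mul_le_mul_of_nonneg_left (by linarith) (norm_nonneg _)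
  have k1 := key (Ω i) inferInstance (P i) inferInstance (X i) (hX i) hi3
  have k2 := key Z inferInstance μ inferInstance id measurable_id hχμ
  simp only [id_eq] at k2
  rw [Real.dist_eq] at hi1 hi2
  have hfη : ‖f‖ * η ≤ ε / 4 := by
    rw [hη, mul_div_assoc', div_le_div_iff₀ (by positivity) (by norm_num)]
    nlinarith [norm_nonneg f]
  rw [dist_eq_norm]
  set a1 := ∫ ω, (f (X i ω)).re * χ (X i ω) ∂(P i) with ha1
  set a2 := ∫ ω, (f (X i ω)).im * χ (X i ω) ∂(P i) with ha2
  set b1 := ∫ z, (f z).re * χ z ∂μ with hb1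
  set b2 := ∫ z, (f z).im * χ z ∂μ with hb2
  have e7 : ∫ ω, f (X i ω) ∂(P i) - ∫ z, f z ∂μ =
      (∫ ω, f (X i ω) ∂(P i) - ((a1 : ℂ) + (a2 : ℂ) * Complex.I)) -
      (∫ z, f z ∂μ - ((b1 : ℂ) + (b2 : ℂ) * Complex.I)) +
      (((a1 - b1 : ℝ) : ℂ) + ((a2 - b2 : ℝ) : ℂ) * Complex.I) := by
    push_cast
    ring
  rw [e7]
  have n3 : ‖(((a1 - b1 : ℝ) : ℂ) + ((a2 - b2 : ℝ) : ℂ) * Complex.I)‖ < ε / 4 := by
    refine (norm_add_le _ _).trans_lt ?_
    rw [norm_mul, Complex.norm_I, mul_one, Complex.norm_real, Complex.norm_real, Real.norm_eq_abs,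
      Real.norm_eq_abs]
    linarith
  refine (norm_add_le _ _).trans_lt ?_
  have n4 := norm_sub_le (∫ ω, f (X i ω) ∂(P i) - ((a1 : ℂ) + (a2 : ℂ) * Complex.I))
    (∫ z, f z ∂μ - ((b1 : ℂ) + (b2 : ℂ) * Complex.I))
  linarith

end

end Pool.Agent.Helper5.EQ
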