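import Pool.Agent.Helper5.EQ.Core
import Pool.Graph.R_pool_sql_team_seeded_63374d34.N210.EQ.Dense

/-! # From products of functions to functions on the product -/

set_option autoImplicit false

open Finset MeasureTheory Filter Topology
open scoped ComplexConjugate BoundedContinuousFunction

namespace Pool.Agent.Helper5.EQ

open Pool.Agent.Q12.CM Pool.Agent.N210.EQ

variable {I : Type} {F : Filter I} {ι : Type}

section map

variable {Y S : ι → Type} [∀ j, TopologicalSpace (Y j)]
  [∀ j, MeasurableSpace (Y j)] [∀ j, BorelSpace (Y j)] [∀ j, TopologicalSpace (S j)]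
  [∀ j, MeasurableSpace (S j)] [∀ j, BorelSpace (S j)]

/-- the image of an orbit -/
def Orb.map (o : Orb Y) (proj : ∀ j, Y j → S j) (hproj : ∀ j, Continuous (proj j)) : Orb S where
  Ω := o.Ω
  P := o.P
  X := fun j ω => proj j (o.X j ω)
  measurable := fun j => (hproj j).measurable.comp (o.measurable j)

theorem Joint.map {μ : ∀ j, Measure (Y j)} [∀ j, IsProbabilityMeasure (μ j)] {s : I → Orb Y}
    {J : Finset ι} (h : Joint F μ s J) (proj : ∀ j, Y j → S j) (hproj : ∀ j, Continuous (proj j)) :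
    Joint F (fun j => (μ j).map (proj j)) (fun i => (s i).map proj hproj) J := by
  intro f
  have h1 := h fun j => (f j).compContinuous ⟨proj j, hproj j⟩
  have e1 : ∏ j ∈ J, ∫ y, f j y ∂((μ j).map (proj j)) =
      ∏ j ∈ J, ∫ y, ((f j).compContinuous ⟨proj j, hproj j⟩) y ∂(μ j) := by
    refine Finset.prod_congr rfl fun j _ => ?_
    rw [integral_map (hproj j).measurable.aemeasurable
      (f j).continuous.measurable.aestronglyMeasurable]
    rfl
  rw [e1]
  exact h1

end map

variable {S : ι → Type} [∀ j, TopologicalSpace (S j)]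
  [∀ j, MeasurableSpace (S j)] [∀ j, BorelSpace (S j)]

/-- the mean of a function on the product over an orbit -/
noncomputable def Orb.mean (o : Orb S) (Φ : (∀ j, S j) → ℝ) : ℝ :=
  ∫ ω, Φ (fun j => o.X j ω) ∂o.P

omit [∀ j, TopologicalSpace (S j)] [∀ j, BorelSpace (S j)] in
lemma Orb.measurable_pi (o : Orb S) : Measurable fun ω => fun j => o.X j ω :=
  measurable_pi_lambda _ o.measurable

variable [Fintype ι]

omit [∀ j, BorelSpace (S j)] in
theorem tendsto_product {ν : ∀ j, Measure (S j)} [∀ j, IsProbabilityMeasure (ν j)]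
    {s : I → Orb S} (h : Joint F ν s univ) {φ : ∀ j, S j → ℝ} (hφ : ∀ j, Continuous (φ j))
    (hs : ∀ j, HasCompactSupport (φ j)) :
    Tendsto (fun i => (s i).mean (fun y => ∏ j, φ j (y j))) F
      (𝓝 (∫ y, ∏ j, φ j (y j) ∂(Measure.pi ν))) := by
  choose C hC using fun j => (hφ j).bounded_above_of_compact_support (hs j)
  let f : ∀ j, S j →ᵇ ℂ := fun j => BoundedContinuousFunction.ofNormedAddCommGroup
    (fun y => (φ j y : ℂ)) (Complex.continuous_ofReal.comp (hφ j)) (C j)
    (fun y => by rw [Complex.norm_real]; exact hC j y)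
  have hf : ∀ j y, f j y = (φ j y : ℂ) := fun j y => rfl
  have h1 := h f
  have e1 : ∀ i, ∫ ω, ∏ j, f j ((s i).X j ω) ∂(s i).P =
      (((s i).mean (fun y => ∏ j, φ j (y j)) : ℝ) : ℂ) := by
    intro i
    unfold Orb.mean
    rw [← integral_complex_ofReal]
    refine integral_congr_ae (Eventually.of_forall fun ω => ?_)
    simp only [hf]
    push_cast
    rfl
  have e2 : ∏ j, ∫ y, f j y ∂(ν j) = ((∫ y, ∏ j, φ j (y j) ∂(Measure.pi ν) : ℝ) : ℂ) := by
    rw [integral_fintype_prod_eq_prod]
    push_cast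
    refine Finset.prod_congr rfl fun j _ => ?_
    rw [← integral_complex_ofReal]
    rfl
  simp only [e1] at h1
  rw [e2] at h1
  have h2 := (Complex.continuous_re.tendsto _).comp h1
  simpa [Function.comp_def] using h2

theorem integrable_of [∀ j, SecondCountableTopology (S j)] (ν : ∀ j, Measure (S j))
    [∀ j, IsProbabilityMeasure (ν j)] {φ : ∀ j, S j → ℝ} (hφ : ∀ j, Continuous (φ j))
    (hs : ∀ j, HasCompactSupport (φ j)) :
    Integrable (fun y : ∀ j, S j => ∏ j, φ j (y j)) (Measure.pi ν) := by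
  refine Integrable.fintype_prod_dep fun j => ?_
  exact (hφ j).integrable_of_hasCompactSupport (hs j)

/-- **Weak convergence.** -/
theorem weak [∀ j, SecondCountableTopology (S j)] [∀ j, T2Space (S j)]
    [∀ j, LocallyCompactSpace (S j)] {ν : ∀ j, Measure (S j)}
    [∀ j, IsProbabilityMeasure (ν j)] {s : I → Orb S} (h : Joint F ν s univ)
    (Φ : (∀ j, S j) → ℝ) (hc : Continuous Φ) (hs : HasCompactSupport Φ) :
    Tendsto (fun i => (s i).mean Φ) F (𝓝 (∫ y, Φ y ∂(Measure.pi ν))) := by
  have hmeas : ∀ (o : Orb S) (Ψ : (∀ j, S j) → ℝ), Continuous Ψ →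
      Measurable fun ω => Ψ (fun j => o.X j ω) := fun o Ψ hΨ =>
    hΨ.measurable.comp o.measurable_pi
  have hT : ∀ Ψ ∈ Tens S, Continuous Ψ ∧ (∃ C, ∀ y, |Ψ y| ≤ C) ∧ Integrable Ψ (Measure.pi ν) ∧
      Tendsto (fun i => (s i).mean Ψ) F (𝓝 (∫ y, Ψ y ∂(Measure.pi ν))) := by
    intro Ψ hΨ
    unfold Tens at hΨ
    induction hΨ using Submodule.span_induction with
    | mem x hx =>
      obtain ⟨φ, h2, h3, rfl⟩ := hx
      choose C hC using fun j => (h2 j).bounded_above_of_compact_support (h3 j)
      refine ⟨continuous_finsetProd _ fun j _ => (h2 j).comp (continuous_apply j),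
        ⟨∏ j, C j, fun y => ?_⟩, integrable_of ν h2 h3, tendsto_product h h2 h3⟩
      rw [Finset.abs_prod]
      exact Finset.prod_le_prod (fun _ _ => abs_nonneg _) fun j _ => hC j (y j)
    | zero =>
      refine ⟨continuous_const, ⟨0, fun y => by simp⟩, integrable_zero _ _ _, ?_⟩
      simpa [Orb.mean] using tendsto_const_nhds
    | add a b _ _ iha ihb =>
      obtain ⟨ca, ⟨A, hA⟩, ia, ta⟩ := iha
      obtain ⟨cb, ⟨B, hB⟩, ib, tb⟩ := ihb
      refine ⟨ca.add cb, ⟨A + B, fun y => ?_⟩, ia.add ib, ?_⟩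
      · rw [Pi.add_apply]
        exact (abs_add_le _ _).trans (add_le_add (hA y) (hB y))
      · have h2 : ∫ y, (a + b) y ∂(Measure.pi ν) =
            ∫ y, a y ∂(Measure.pi ν) + ∫ y, b y ∂(Measure.pi ν) := integral_add ia ib
        rw [h2]
        have h3 : ∀ i, (s i).mean (a + b) = (s i).mean a + (s i).mean b := by
          intro i
          refine integral_add ?_ ?_
          · exact Integrable.of_bound (hmeas _ a ca).aestronglyMeasurable A
              (Eventually.of_forall fun ω => hA _)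
          · exact Integrable.of_bound (hmeas _ b cb).aestronglyMeasurable B
              (Eventually.of_forall fun ω => hB _)
        simp only [h3]
        exact ta.add tb
    | smul c a _ iha =>
      obtain ⟨ca, ⟨A, hA⟩, ia, ta⟩ := iha
      refine ⟨ca.const_smul c, ⟨|c| * A, fun y => ?_⟩, ia.smul c, ?_⟩
      · rw [Pi.smul_apply, smul_eq_mul, abs_mul]
        exact mul_le_mul_of_nonneg_left (hA y) (abs_nonneg c)
      · have h2 : ∫ y, (c • a) y ∂(Measure.pi ν) = c * ∫ y, a y ∂(Measure.pi ν) := by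
          simp only [Pi.smul_apply, smul_eq_mul]
          exact integral_const_mul c _
        rw [h2]
        have h3 : ∀ i, (s i).mean (c • a) = c * (s i).mean a := fun i => integral_const_mul c _
        simp only [h3]
        exact ta.const_mul c
  have hΦint : Integrable Φ (Measure.pi ν) := hc.integrable_of_hasCompactSupport hs
  obtain ⟨CΦ, hCΦ⟩ := hc.bounded_above_of_compact_support hs
  rw [Metric.tendsto_nhds]
  intro ε hε
  obtain ⟨Ψ, hΨ, hΨε⟩ := dense Φ hc hs (ε := ε / 4) (by positivity)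
  obtain ⟨hcΨ, ⟨C, hC⟩, hi, ht⟩ := hT Ψ hΨ
  filter_upwards [Metric.tendsto_nhds.1 ht (ε / 4) (by positivity)] with i h2
  rw [Real.dist_eq] at h2 ⊢
  have h3 : |(s i).mean Φ - (s i).mean Ψ| ≤ ε / 4 := by
    have i1 : Integrable (fun ω => Φ (fun j => (s i).X j ω)) (s i).P :=
      Integrable.of_bound (hmeas _ Φ hc).aestronglyMeasurable CΦ (Eventually.of_forall fun ω => hCΦ _)
    have i2 : Integrable (fun ω => Ψ (fun j => (s i).X j ω)) (s i).P :=
      Integrable.of_bound (hmeas _ Ψ hcΨ).aestronglyMeasurable C (Eventually.of_forall fun ω => hC _)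
    unfold Orb.mean
    rw [← integral_sub i1 i2]
    have := norm_integral_le_of_norm_le_const (μ := (s i).P)
      (f := fun ω => Φ (fun j => (s i).X j ω) - Ψ (fun j => (s i).X j ω))
      (C := ε / 4) (Eventually.of_forall fun y => hΨε _)
    simpa using this
  have h4 : |∫ y, Φ y ∂(Measure.pi ν) - ∫ y, Ψ y ∂(Measure.pi ν)| ≤ ε / 4 := by
    rw [← integral_sub hΦint hi]
    have := norm_integral_le_of_norm_le_const (μ := Measure.pi ν) (f := fun y => Φ y - Ψ y)
      (C := ε / 4) (Eventually.of_forall fun y => hΨε y)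
    simpa using this
  rw [abs_le] at h3 h4
  rw [abs_lt] at h2 ⊢
  constructor <;> linarith [h3.1, h3.2, h4.1, h4.2, h2.1, h2.2]

end Pool.Agent.Helper5.EQ
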